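import Pool.Agent.Lib.MP_d9d12d_lc.Key

/-!
# Borel functions and the supergale topology
-/

namespace Pool.Agent.Lib.MP_d9d12d_lc

open Set Filter Topology PiNat

/-- The cylinder of a string. -/
def cyl (ρ : List Bool) : Set (ℕ → Bool) := {x | res x ρ.length = ρ}

theorem isOpen_cyl (ρ : List Bool) : IsOpen (cyl ρ) := by
  obtain ⟨x, hx⟩ := exists_res_eq ρ
  have : cyl ρ = cylinder x ρ.length := by
    rw [cylinder_eq_res]
    unfold cyl
    rw [hx]
  rw [this]
  exact isOpen_cylinder _ _ _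

theorem exists_residual_opens (q : Set.Ioo (1 / 2 : ℝ) 1) {f : (ℕ → Bool) → (ℕ → Bool)}
    (hf : @Measurable _ _ (borel (ℕ → Bool)) (borel (ℕ → Bool)) f) :
    ∃ (U : List Bool → Set (ℕ → Bool)) (R : Set (ℕ → Bool)), (∀ ρ, GOpen q (U ρ)) ∧
      R ∈ @residual _ (galeTop q) ∧ ∀ x ∈ R, ∀ ρ, f x ∈ cyl ρ ↔ x ∈ U ρ := by
  have h1 : ∀ ρ, ∃ u : Set (ℕ → Bool), GOpen q u ∧
      {x | f x ∈ cyl ρ ↔ x ∈ u} ∈ @residual _ (galeTop q) := by
    intro ρ
    have hm : @MeasurableSet _ (borel (ℕ → Bool)) (f ⁻¹' cyl ρ) := by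
      apply hf
      exact MeasurableSpace.measurableSet_generateFrom (isOpen_cyl ρ)
    have hm2 : @MeasurableSet _ (@borel _ (galeTop q)) (f ⁻¹' cyl ρ) := by
      exact borel_anti (galeTop_le q) _ hm
    let _t := galeTop q
    let _m : MeasurableSpace (ℕ → Bool) := @borel _ (galeTop q)
    have _b : BorelSpace (ℕ → Bool) := ⟨rfl⟩
    obtain ⟨u, hu, hfu⟩ := MeasurableSet.residualEq_isOpen (α := ℕ → Bool) hm2
    refine ⟨u, hu, ?_⟩
    filter_upwards [hfu] with x hx
    exact iff_of_eq hx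
  choose U hU hR using h1
  refine ⟨U, ⋂ ρ, {x | f x ∈ cyl ρ ↔ x ∈ U ρ}, hU, ?_, ?_⟩
  · exact (countable_iInter_mem).2 hR
  · intro x hx ρ
    exact mem_iInter.1 hx ρ

theorem gdense_of_residual (q : Set.Ioo (1 / 2 : ℝ) 1) {R : Set (ℕ → Bool)}
    (hR : R ∈ @residual _ (galeTop q)) : GDense q R := by
  apply gdense_of_dense
  let _t := galeTop q
  have := galeTop_baire q
  exact dense_of_mem_residual hR

theorem residual_of_gdense (q : Set.Ioo (1 / 2 : ℝ) 1) {R : Set (ℕ → Bool)}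
    (hRo : GOpen q R) (hR : GDense q R) : R ∈ @residual _ (galeTop q) := by
  let _t := galeTop q
  exact residual_of_dense_open hRo (dense_of_gdense q hR)

/-- Decided strings. -/
def dec (q : ℝ) (U : List Bool → Set (ℕ → Bool)) (m : ℕ) (τ ρ : List Bool) : Prop :=
  ρ.length = m ∧ ∃ G, GoodAt τ G ∧ G τ < 1 / 4 * q ^ τ.length ∧ Box q τ G ⊆ U ρ

theorem full_dec {q : ℝ} (hq : 1 / 2 < q) {f : (ℕ → Bool) → (ℕ → Bool)}
    {U : List Bool → Set (ℕ → Bool)} {R : Set (ℕ → Bool)} (hU : ∀ ρ, GOpen q (U ρ))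
    (hR : GDense q R) (hRU : ∀ x ∈ R, ∀ ρ, f x ∈ cyl ρ ↔ x ∈ U ρ) (m : ℕ) (σ : List Bool) :
    Full q {τ | ∃ ρ, dec q U m τ ρ} σ := by
  have hq0 : 0 < q := by linarith
  intro Ψ hΨ hlt
  obtain ⟨x, hxB, hxR⟩ := hR σ Ψ hΨ hlt
  have hxU : x ∈ U (res (f x) m) := by
    rw [← hRU x hxR]
    show res (f x) (res (f x) m).length = res (f x) m
    rw [res_length]
  obtain ⟨G, N, hG, hlim⟩ := exists_box_of_mem hq0 (hU _) hxU
  obtain ⟨M, hM⟩ := eventually_atTop.1 (hlim.eventually (gt_mem_nhds (show (0 : ℝ) < 1 / 4 by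
    norm_num)))
  obtain ⟨n, hn1, hn2, hn3⟩ : ∃ n, M ≤ n ∧ N ≤ n ∧ σ.length ≤ n :=
    ⟨max (max M N) σ.length, by omega, by omega, by omega⟩
  refine ⟨res x n, ⟨res (f x) m, res_length _ _, G, (hG n hn2).1, ?_, (hG n hn2).2⟩, ?_, ?_⟩
  · have := hM n hn1
    rw [div_lt_iff₀ (pow_pos hq0 n)] at this
    rw [res_length]
    exact this
  · conv_lhs => rw [← hxB.1]
    exact res_suffix_res x hn3
  · intro τ' h1 h2
    obtain ⟨h3, h4⟩ := suffix_res h2
    have h5 := hxB.2.1 τ'.length h1.length_le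
    rw [← h3] at h5
    exact h5

/-- For every Borel `f` there is a limsup set of cylinders, of small size, whose preimage is
residual. -/
theorem exists_small_image (q : Set.Ioo (1 / 2 : ℝ) 1) {f : (ℕ → Bool) → (ℕ → Bool)}
    (hf : @Measurable _ _ (borel (ℕ → Bool)) (borel (ℕ → Bool)) f) :
    ∃ T : ℕ → List Bool → Finset (List Bool),
      (∀ n σ, ∀ ρ ∈ T n σ, ρ.length = (Encodable.encode σ + n)) ∧
      (∀ n σ, (q : ℝ) ^ ((Encodable.encode σ + n)) * (T n σ).card ≤ 32 * cstC q) ∧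
      {x | ∀ n, ∃ σ, ∃ ρ ∈ T n σ, f x ∈ cyl ρ} ∈ @residual _ (galeTop q) := by
  obtain ⟨U, R, hU, hR, hRU⟩ := exists_residual_opens q hf
  have hq : (1 / 2 : ℝ) < q := q.2.1
  have hq1 : (q : ℝ) < 1 := q.2.2
  have hq0 : (0 : ℝ) < q := by linarith
  have hg : ∀ (m : ℕ) (τ : List Bool), ∃ ρ, τ ∈ {τ | ∃ ρ, dec q U m τ ρ} → dec q U m τ ρ := by
    intro m τ
    by_cases h : ∃ ρ, dec q U m τ ρ
    · obtain ⟨ρ, hρ⟩ := h
      exact ⟨ρ, fun _ => hρ⟩
    · exact ⟨[], fun h' => absurd h' h⟩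
  choose g hg using hg
  have hkey : ∀ (m : ℕ) (σ : List Bool), _ := fun m σ =>
    key_lemma hq hq1 (σ := σ) (m := m) (D := {τ | ∃ ρ, dec q U m τ ρ}) (g := g m)
      (fun τ hτ => (hg m τ hτ).1)
      (fun σ₁ _ => full_dec hq hU (gdense_of_residual q hR) hRU m σ₁)
  choose T hT1 hT2 hT3 using hkey
  refine ⟨fun n σ => T ((Encodable.encode σ + n)) σ, fun n σ => hT1 _ σ, fun n σ => hT2 _ σ, ?_⟩
  have hUT : ∀ n, (⋃ σ : List Bool, ⋃ ρ ∈ T ((Encodable.encode σ + n)) σ, U ρ) ∈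
      @residual _ (galeTop q) := by
    intro n
    apply residual_of_gdense
    · have e : (⋃ σ : List Bool, ⋃ ρ ∈ T ((Encodable.encode σ + n)) σ, U ρ) =
          ⋃₀ {W | ∃ σ : List Bool, ∃ ρ ∈ T ((Encodable.encode σ + n)) σ, W = U ρ} := by
        ext x
        simp only [mem_iUnion, mem_sUnion, mem_ofPred_eq]
        constructor
        · rintro ⟨σ, ρ, h1, h2⟩
          exact ⟨U ρ, ⟨σ, ρ, h1, rfl⟩, h2⟩
        · rintro ⟨_, ⟨σ, ρ, h1, rfl⟩, h2⟩
          exact ⟨σ, ρ, h1, h2⟩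
      rw [e]
      apply gopen_sUnion
      rintro _ ⟨σ, ρ, -, rfl⟩
      exact hU ρ
    · intro σ G hG hlt
      obtain ⟨z, hz⟩ := box_nonempty hq hG hlt
      have hc : 0 < 1 / (64 * cstC q) := by
        have := one_le_cstC hq hq1
        positivity
      obtain ⟨M, hM⟩ := eventually_atTop.1 (hz.2.2.eventually (gt_mem_nhds hc))
      obtain ⟨k, hk1, hk2⟩ : ∃ k, M ≤ k ∧ σ.length ≤ k := ⟨max M σ.length, by omega, by omega⟩
      have hσz : σ <:+ res z k := by
        conv_lhs => rw [← hz.1]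
        exact res_suffix_res z hk2
      have hGz := hG.mono hσz
      obtain ⟨τ, hτD, hτT, hτs, hτp⟩ := hT3 ((Encodable.encode (res z k) + n)) (res z k) G hGz (by
        have := hM k hk1
        rw [div_lt_iff₀ (pow_pos hq0 k)] at this
        rw [res_length]
        exact this)
      obtain ⟨-, G', hG'1, hG'2, hG'3⟩ := hg _ τ hτD
      have hGτ := hGz.mono hτs
      have hτ1 := hτp τ hτs (List.suffix_refl _)
      obtain ⟨y, hy⟩ := box_nonempty hq (hGτ.add hG'1) (by
        show G τ + G' τ < (q : ℝ) ^ τ.length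
        linarith)
      have hyG : y ∈ Box q τ G := box_mono hq0 hGτ (fun τ' h => by
        have := (hG'1 τ' h).1
        show G τ' ≤ G τ' + G' τ'
        linarith) hy
      have hyG' : y ∈ Box q τ G' := box_mono hq0 hG'1 (fun τ' h => by
        have := (hGτ τ' h).1
        show G' τ' ≤ G τ' + G' τ'
        linarith) hy
      refine ⟨y, ⟨?_, ?_, hyG.2.2⟩, ?_⟩
      · have h1 := suffix_res (x := y) (n := τ.length) (τ := σ) (by
          rw [hyG.1]; exact hσz.trans hτs)
        exact h1.1.symm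
      · intro j hj
        rcases le_total τ.length j with h | h
        · exact hyG.2.1 j h
        · have h2 : res y j <:+ τ := by
            have := res_suffix_res y h
            rwa [hyG.1] at this
          rcases le_total k j with h' | h'
          · have h3 : res z k <:+ res y j :=
              List.suffix_of_suffix_length_le hτs h2 (by simpa using h')
            have h4 := hτp (res y j) h3 h2
            rw [res_length] at h4
            have := pow_pos hq0 j
            linarith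
          · have h3 : res y j = res z j := by
              have e1 : res y j <:+ res z k := List.suffix_of_suffix_length_le h2 hτs (by
                simpa using h')
              have e2 := (suffix_res e1).1
              rwa [res_length] at e2
            rw [h3]
            exact hz.2.1 j hj
      · simp only [mem_iUnion]
        exact ⟨res z k, g _ τ, hτT, hG'3 hyG'⟩
  have h3 := @countable_iInter_mem _ _ (@residual _ (galeTop q)) _ _
    (fun n : ℕ => (⋃ σ : List Bool, ⋃ ρ ∈ T ((Encodable.encode σ + n)) σ, U ρ)) |>.2 hUT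
  filter_upwards [h3, hR] with x hx1 hx2
  intro n
  have hx3 := mem_iInter.1 hx1 n
  simp only [mem_iUnion] at hx3
  obtain ⟨σ, ρ, h4, h5⟩ := hx3
  exact ⟨σ, ρ, h4, (hRU x hx2 ρ).2 h5⟩

end Pool.Agent.Lib.MP_d9d12d_lc
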