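import Pool.Agent.Lib.MP_d9d12d_lc.Null

/-!
# Hausdorff dimension in Cantor space
-/

namespace Pool.Agent.Lib.MP_d9d12d_lc

open Set Filter Topology PiNat MeasureTheory Metric
open scoped ENNReal NNReal

attribute [local instance] PiNat.metricSpace

theorem ediam_cyl_le (ρ : List Bool) : ediam (cyl ρ) ≤ (1 / 2 : ℝ≥0∞) ^ ρ.length := by
  apply ediam_le
  intro x hx y hy
  have h : y ∈ cylinder x ρ.length := by
    rw [cylinder_eq_res]
    show res y ρ.length = res x ρ.length
    rw [show res y ρ.length = ρ from hy, show res x ρ.length = ρ from hx]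
  rw [mem_cylinder_comm, mem_cylinder_iff_dist_le] at h
  have h2 : dist x y ≤ (1 / 2 : ℝ) ^ ρ.length := h
  rw [edist_dist]
  calc ENNReal.ofReal (dist x y) ≤ ENNReal.ofReal ((1 / 2) ^ ρ.length) :=
        ENNReal.ofReal_le_ofReal h2
    _ = (1 / 2 : ℝ≥0∞) ^ ρ.length := by
        rw [ENNReal.ofReal_pow (by norm_num)]
        congr 1
        rw [ENNReal.ofReal_div_of_pos (by norm_num)]
        simp

/-- The dimension of a limsup set of few cylinders. -/
theorem dimH_limsup_le {s : ℝ≥0} {K : ℝ} (T : ℕ → List Bool → Finset (List Bool))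
    (h1 : ∀ n σ, ∀ ρ ∈ T n σ, ρ.length = Encodable.encode σ + n)
    (h2 : ∀ n σ, ((1 / 2 : ℝ) ^ (s : ℝ)) ^ (Encodable.encode σ + n) * (T n σ).card ≤ K) :
    dimH {y : ℕ → Bool | ∀ n, ∃ σ, ∃ ρ ∈ T n σ, y ∈ cyl ρ} ≤ s := by
  apply dimH_le
  intro d hd
  by_contra hlt
  rw [not_le, ENNReal.coe_lt_coe] at hlt
  have hlt' : (s : ℝ) < d := by exact_mod_cast hlt
  set M := {y : ℕ → Bool | ∀ n, ∃ σ, ∃ ρ ∈ T n σ, y ∈ cyl ρ} with hM
  -- theta
  set θ : ℝ≥0∞ := ENNReal.ofReal ((1 / 2 : ℝ) ^ ((d : ℝ) - s)) with hθ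
  have hθ1 : θ < 1 := by
    rw [hθ, ← ENNReal.ofReal_one]
    apply (ENNReal.ofReal_lt_ofReal_iff (by norm_num)).2
    apply Real.rpow_lt_one (by norm_num) (by norm_num) (by linarith)
  have key := Measure.hausdorffMeasure_le_liminf_tsum (X := ℕ → Bool) (β := ℕ)
    (ι := fun n => Σ σ : List Bool, {ρ // ρ ∈ T n σ}) (d : ℝ) M (l := atTop)
    (fun n => (1 / 2 : ℝ≥0∞) ^ n) (by
      apply ENNReal.tendsto_pow_atTop_nhds_zero_of_lt_one
      simp) (fun n i => cyl i.2.1) (by
      filter_upwards with n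
      intro i
      refine (ediam_cyl_le _).trans ?_
      rw [h1 n i.1 i.2.1 i.2.2]
      apply pow_le_pow_right_of_le_one' (by simp)
      omega) (by
      filter_upwards with n
      intro y hy
      obtain ⟨σ, ρ, hρ, hy⟩ := hy n
      exact mem_iUnion.2 ⟨⟨σ, ρ, hρ⟩, hy⟩)
  have hbound : ∀ n : ℕ, ∑' i : (Σ σ : List Bool, {ρ // ρ ∈ T n σ}), ediam (cyl i.2.1) ^ (d : ℝ) ≤
      ENNReal.ofReal K * (1 - θ)⁻¹ := by
    intro n
    rw [ENNReal.tsum_sigma']
    have hσ : ∀ σ : List Bool, ∑' ρ : {ρ // ρ ∈ T n σ}, ediam (cyl ρ.1) ^ (d : ℝ) ≤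
        ENNReal.ofReal K * θ ^ (Encodable.encode σ) := by
      intro σ
      set m := Encodable.encode σ + n with hm
      have e1 : ∀ ρ : {ρ // ρ ∈ T n σ}, ediam (cyl ρ.1) ^ (d : ℝ) ≤
          ENNReal.ofReal (((1 / 2 : ℝ) ^ (d : ℝ)) ^ m) := by
        intro ρ
        have e2 := ediam_cyl_le ρ.1
        rw [h1 n σ ρ.1 ρ.2] at e2
        refine (ENNReal.rpow_le_rpow e2 (by positivity)).trans (le_of_eq ?_)
        have e3 : (1 / 2 : ℝ≥0∞) = ENNReal.ofReal (1 / 2) := by
          rw [ENNReal.ofReal_div_of_pos (by norm_num)]; simp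
        rw [e3, ← ENNReal.ofReal_pow (by norm_num), ENNReal.ofReal_rpow_of_nonneg (by positivity)
          (by positivity)]
        congr 1
        rw [← Real.rpow_natCast, ← Real.rpow_mul (by norm_num), mul_comm,
          Real.rpow_mul (by norm_num), Real.rpow_natCast]
      calc ∑' ρ : {ρ // ρ ∈ T n σ}, ediam (cyl ρ.1) ^ (d : ℝ)
          ≤ ∑' ρ : {ρ // ρ ∈ T n σ}, ENNReal.ofReal (((1 / 2 : ℝ) ^ (d : ℝ)) ^ m) :=
            ENNReal.tsum_le_tsum e1
        _ = (T n σ).card * ENNReal.ofReal (((1 / 2 : ℝ) ^ (d : ℝ)) ^ m) := by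
            rw [tsum_fintype, Finset.sum_const, nsmul_eq_mul]
            simp
        _ = ENNReal.ofReal ((T n σ).card * ((1 / 2 : ℝ) ^ (d : ℝ)) ^ m) := by
            rw [ENNReal.ofReal_mul (by positivity), ENNReal.ofReal_natCast]
        _ ≤ ENNReal.ofReal (K * ((1 / 2 : ℝ) ^ ((d : ℝ) - s)) ^ (Encodable.encode σ)) := by
            apply ENNReal.ofReal_le_ofReal
            have e4 : ((1 / 2 : ℝ) ^ (d : ℝ)) ^ m =
                ((1 / 2 : ℝ) ^ (s : ℝ)) ^ m * ((1 / 2 : ℝ) ^ ((d : ℝ) - s)) ^ m := by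
              rw [← mul_pow, ← Real.rpow_add (by norm_num)]
              congr 2; ring
            rw [e4]
            have e5 := h2 n σ
            rw [← hm] at e5
            have e6 : ((1 / 2 : ℝ) ^ ((d : ℝ) - s)) ^ m ≤
                ((1 / 2 : ℝ) ^ ((d : ℝ) - s)) ^ (Encodable.encode σ) := by
              apply pow_le_pow_of_le_one (by positivity)
              · exact Real.rpow_le_one (by norm_num) (by norm_num) (by linarith)
              · omega
            have e7 : 0 ≤ ((1 / 2 : ℝ) ^ (s : ℝ)) ^ m * ((T n σ).card : ℝ) := by positivity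
            calc ((T n σ).card : ℝ) * (((1 / 2 : ℝ) ^ (s : ℝ)) ^ m *
                  ((1 / 2 : ℝ) ^ ((d : ℝ) - s)) ^ m)
                = (((1 / 2 : ℝ) ^ (s : ℝ)) ^ m * ((T n σ).card : ℝ)) *
                  ((1 / 2 : ℝ) ^ ((d : ℝ) - s)) ^ m := by ring
              _ ≤ K * ((1 / 2 : ℝ) ^ ((d : ℝ) - s)) ^ (Encodable.encode σ) := by
                  apply mul_le_mul e5 e6 (by positivity) (e7.trans e5)
        _ = ENNReal.ofReal K * θ ^ (Encodable.encode σ) := by
            have hK : 0 ≤ K := le_trans (by positivity) (h2 n σ)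
            rw [ENNReal.ofReal_mul hK, hθ, ENNReal.ofReal_pow (by positivity)]
    refine (ENNReal.tsum_le_tsum hσ).trans ?_
    rw [ENNReal.tsum_mul_left]
    gcongr
    calc ∑' σ : List Bool, θ ^ (Encodable.encode σ) ≤ ∑' k : ℕ, θ ^ k :=
          ENNReal.tsum_comp_le_tsum_of_injective Encodable.encode_injective _
      _ = (1 - θ)⁻¹ := ENNReal.tsum_geometric θ
  have hfin : ENNReal.ofReal K * (1 - θ)⁻¹ < ∞ := by
    apply ENNReal.mul_lt_top ENNReal.ofReal_lt_top
    rw [ENNReal.inv_lt_top]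
    exact tsub_pos_of_lt hθ1
  have hle : μH[(d : ℝ)] M ≤ ENNReal.ofReal K * (1 - θ)⁻¹ := by
    refine key.trans ?_
    refine (liminf_le_liminf (Eventually.of_forall hbound)).trans ?_
    rw [liminf_const]
  rw [hd] at hle
  exact absurd hle (not_le.2 hfin)

/-- Every set has dimension at most one. -/
theorem dimH_le_one (E : Set (ℕ → Bool)) : dimH E ≤ 1 := by
  have key := Measure.hausdorffMeasure_le_liminf_tsum (X := ℕ → Bool) (β := ℕ)
    (ι := fun n => {ρ // ρ ∈ lev [] n}) (1 : ℝ) E (l := atTop)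
    (fun n => (1 / 2 : ℝ≥0∞) ^ n) (by
      apply ENNReal.tendsto_pow_atTop_nhds_zero_of_lt_one
      simp) (fun n i => cyl i.1) (by
      filter_upwards with n
      intro i
      refine (ediam_cyl_le _).trans ?_
      have := (mem_lev.1 i.2).2
      simp only [List.length_nil, zero_add] at this
      rw [this]) (by
      filter_upwards with n
      intro y _
      refine mem_iUnion.2 ⟨⟨res y n, ?_⟩, ?_⟩
      · rw [mem_lev]; exact ⟨List.nil_suffix, by simp⟩
      · show res y (res y n).length = res y n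
        rw [res_length])
  have hbound : ∀ n : ℕ, ∑' i : {ρ // ρ ∈ lev [] n}, ediam (cyl i.1) ^ (1 : ℝ) ≤ 1 := by
    intro n
    calc ∑' i : {ρ // ρ ∈ lev [] n}, ediam (cyl i.1) ^ (1 : ℝ)
        ≤ ∑' i : {ρ // ρ ∈ lev [] n}, (1 / 2 : ℝ≥0∞) ^ n := by
          apply ENNReal.tsum_le_tsum
          intro i
          rw [ENNReal.rpow_one]
          refine (ediam_cyl_le _).trans ?_
          have := (mem_lev.1 i.2).2
          simp only [List.length_nil, zero_add] at this
          rw [this]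
      _ = 2 ^ n * (1 / 2 : ℝ≥0∞) ^ n := by
          rw [tsum_fintype, Finset.sum_const, nsmul_eq_mul, Finset.card_univ, Fintype.card_coe,
            card_lev]
          push_cast
          rfl
      _ = 1 := by
          rw [← mul_pow, one_div, ENNReal.mul_inv_cancel (by norm_num) (by norm_num), one_pow]
  have hle : μH[(1 : ℝ)] E ≤ 1 := by
    refine key.trans ?_
    refine (liminf_le_liminf (Eventually.of_forall hbound)).trans ?_
    rw [liminf_const]
  have h := dimH_le_of_hausdorffMeasure_ne_top (d := 1) (s := E) (by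
    have : μH[((1 : ℝ≥0) : ℝ)] E ≤ 1 := by simpa using hle
    exact ne_top_of_le_ne_top ENNReal.one_ne_top this)
  simpa using h

theorem exists_pow_small {q : ℝ} (hq0 : 0 < q) (hq1 : q < 1) {ε : ℝ≥0} (hε : 0 < ε) :
    ∃ L : ℕ, ENNReal.ofReal (q ^ L) ≤ ε := by
  obtain ⟨L, hL⟩ := exists_pow_lt_of_lt_one (show (0 : ℝ) < ε by exact_mod_cast hε) hq1
  refine ⟨L, ?_⟩
  rw [← ENNReal.ofReal_coe_nnreal]
  exact ENNReal.ofReal_le_ofReal hL.le

/-- A set is contained in a cylinder of comparable size. -/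
theorem exists_cyl_cover {s : ℝ≥0} (hs0 : 0 < s) (t : Set (ℕ → Bool)) {ε : ℝ≥0} (hε : 0 < ε) :
    ∃ v : List Bool, t ⊆ cyl v ∧ ENNReal.ofReal (((1 / 2 : ℝ) ^ (s : ℝ)) ^ v.length) ≤
      (⨆ _ : t.Nonempty, ediam t ^ (s : ℝ)) + ε := by
  set q : ℝ := (1 / 2 : ℝ) ^ (s : ℝ) with hq
  have hq0 : 0 < q := by positivity
  have hq1 : q < 1 := Real.rpow_lt_one (by norm_num) (by norm_num) (by exact_mod_cast hs0)
  obtain ⟨L, hL⟩ := exists_pow_small hq0 hq1 hε
  rcases t.eq_empty_or_nonempty with rfl | ⟨x, hx⟩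
  · refine ⟨List.replicate L false, empty_subset _, ?_⟩
    rw [List.length_replicate]
    exact hL.trans le_add_self
  · have hne : t.Nonempty := ⟨x, hx⟩
    simp only [hne, iSup_pos]
    by_cases h0 : ediam t = 0
    · rw [ediam_eq_zero_iff] at h0
      refine ⟨res x L, ?_, ?_⟩
      · intro y hy
        rw [h0 hy hx]
        show res x (res x L).length = res x L
        rw [res_length]
      · rw [res_length]
        exact hL.trans le_add_self
    · -- positive diameter
      have hle1 : ediam t ≤ 1 := by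
        apply ediam_le
        intro a _ b _
        rw [edist_dist]
        exact ENNReal.ofReal_le_one.2 (PiNat.dist_le_one a b)
      have hfin : ediam t ≠ ∞ := ne_top_of_le_ne_top ENNReal.one_ne_top hle1
      set c : ℝ := (ediam t).toReal with hc
      have hc0 : 0 < c := ENNReal.toReal_pos h0 hfin
      have hdist : ∀ y ∈ t, dist x y ≤ c := by
        intro y hy
        have h1 := edist_le_ediam_of_mem hx hy
        rw [edist_dist] at h1
        rw [hc]
        exact (ENNReal.ofReal_le_iff_le_toReal hfin).1 h1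
      have hex : ∃ k : ℕ, (1 / 2 : ℝ) ^ k ≤ c := by
        obtain ⟨k, hk⟩ := exists_pow_lt_of_lt_one hc0 (show (1 / 2 : ℝ) < 1 by norm_num)
        exact ⟨k, hk.le⟩
      classical
      let k := Nat.find hex
      have hk : (1 / 2 : ℝ) ^ k ≤ c := Nat.find_spec hex
      refine ⟨res x k, ?_, ?_⟩
      · intro y hy
        show res y (res x k).length = res x k
        rw [res_length, res_eq_res]
        intro i hi
        rcases Nat.eq_zero_or_pos k with hk0 | hk0
        · omega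
        · have h1 : ¬ (1 / 2 : ℝ) ^ (k - 1) ≤ c := Nat.find_min hex (by omega)
          push Not at h1
          have h2 : dist x y < (1 / 2 : ℝ) ^ (k - 1) := (hdist y hy).trans_lt h1
          exact (apply_eq_of_dist_lt h2 (by omega)).symm
      · rw [res_length]
        refine le_trans ?_ le_self_add
        have e1 : q ^ k = ((1 / 2 : ℝ) ^ k) ^ (s : ℝ) := by
          rw [hq, ← Real.rpow_natCast, ← Real.rpow_mul (by norm_num), mul_comm,
            Real.rpow_mul (by norm_num), Real.rpow_natCast]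
        rw [e1, ← ENNReal.ofReal_rpow_of_nonneg (by positivity) (by positivity)]
        apply ENNReal.rpow_le_rpow _ (by positivity)
        rw [← ENNReal.ofReal_toReal hfin]
        exact ENNReal.ofReal_le_ofReal hk

/-- Sets of small dimension have arbitrarily cheap covers. -/
theorem exists_cheap_cover {s : ℝ≥0} (hs0 : 0 < s) {N : Set (ℕ → Bool)}
    (hN : dimH N < s) (ε : ℝ) (hε : 0 < ε) :
    ∃ V : ℕ → List Bool, N ⊆ ⋃ n, cyl (V n) ∧
      Summable (fun n => ((1 / 2 : ℝ) ^ (s : ℝ)) ^ (V n).length) ∧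
      ∑' n, ((1 / 2 : ℝ) ^ (s : ℝ)) ^ (V n).length < ε := by
  set q : ℝ := (1 / 2 : ℝ) ^ (s : ℝ) with hq
  have hq0 : 0 < q := by positivity
  have h0 := hausdorffMeasure_of_dimH_lt hN
  rw [Measure.hausdorffMeasure_apply] at h0
  have h1 : (⨅ (t : ℕ → Set (ℕ → Bool)) (_ : N ⊆ ⋃ n, t n) (_ : ∀ n, ediam (t n) ≤ 1),
          ∑' n, ⨆ _ : (t n).Nonempty, ediam (t n) ^ (s : ℝ)) = 0 := by
    have h2 := le_iSup₂ (f := fun (r : ℝ≥0∞) (_ : 0 < r) => ⨅ (t : ℕ → Set (ℕ → Bool))
      (_ : N ⊆ ⋃ n, t n) (_ : ∀ n, ediam (t n) ≤ r), ∑' n, ⨆ _ : (t n).Nonempty,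
        ediam (t n) ^ (s : ℝ)) 1 zero_lt_one
    rw [h0] at h2
    exact le_antisymm h2 zero_le
  have hε2 : (0 : ℝ≥0∞) < ENNReal.ofReal (ε / 2) := by
    rw [ENNReal.ofReal_pos]; linarith
  have h3 : (⨅ (t : ℕ → Set (ℕ → Bool)) (_ : N ⊆ ⋃ n, t n) (_ : ∀ n, ediam (t n) ≤ 1),
          ∑' n, ⨆ _ : (t n).Nonempty, ediam (t n) ^ (s : ℝ)) < ENNReal.ofReal (ε / 2) := by
    rw [h1]; exact hε2
  simp only [iInf_lt_iff] at h3
  obtain ⟨t, ht1, -, ht3⟩ := h3
  obtain ⟨δ, hδ0, hδ⟩ := ENNReal.exists_pos_sum_of_countable hε2.ne' ℕ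
  choose V hV1 hV2 using fun n => exists_cyl_cover hs0 (t n) (hδ0 n)
  have hsum : ∑' n, ENNReal.ofReal (q ^ (V n).length) < ENNReal.ofReal ε := by
    calc ∑' n, ENNReal.ofReal (q ^ (V n).length)
        ≤ ∑' n, ((⨆ _ : (t n).Nonempty, ediam (t n) ^ (s : ℝ)) + δ n) :=
          ENNReal.tsum_le_tsum hV2
      _ = ∑' n, (⨆ _ : (t n).Nonempty, ediam (t n) ^ (s : ℝ)) + ∑' n, (δ n : ℝ≥0∞) :=
          ENNReal.tsum_add
      _ < ENNReal.ofReal (ε / 2) + ENNReal.ofReal (ε / 2) := ENNReal.add_lt_add ht3 hδ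
      _ = ENNReal.ofReal ε := by
          rw [← ENNReal.ofReal_add (by linarith) (by linarith)]
          congr 1; ring
  have hsummable : Summable (fun n => q ^ (V n).length) := by
    have hne : ∑' n, ENNReal.ofReal (q ^ (V n).length) ≠ ∞ := hsum.ne_top
    have := ENNReal.summable_toReal hne
    refine this.congr ?_
    intro n
    rw [ENNReal.toReal_ofReal (by positivity)]
  refine ⟨V, ht1.trans (iUnion_mono hV1), hsummable, ?_⟩
  rw [← ENNReal.ofReal_tsum_of_nonneg (fun n => by positivity) hsummable] at hsum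
  exact (ENNReal.ofReal_lt_ofReal_iff hε).1 hsum

end Pool.Agent.Lib.MP_d9d12d_lc
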