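import Pool.Agent.Lib.MP_d9d12d_lc.Gale

/-!
# Frostman weights on the binary tree
-/

namespace Pool.Agent.Lib.MP_d9d12d_lc

open Set Filter Topology

theorem suffix_cases {τ v : List Bool} (h : τ <:+ v) :
    v = τ ∨ (false :: τ) <:+ v ∨ (true :: τ) <:+ v := by
  obtain ⟨u, rfl⟩ := h
  rcases List.eq_nil_or_concat u with rfl | ⟨u', b, rfl⟩
  · left; rfl
  · right
    cases b
    · left; exact ⟨u', by simp⟩
    · right; exact ⟨u', by simp⟩

theorem not_both {τ v : List Bool} (h0 : (false :: τ) <:+ v) (h1 : (true :: τ) <:+ v) : False := by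
  have := (List.suffix_of_suffix_length_le h0 h1 (by simp)).eq_of_length (by simp)
  simp at this

theorem cons_suffix {b : Bool} {τ v : List Bool} (h : (b :: τ) <:+ v) : τ <:+ v :=
  (List.suffix_cons b τ).trans h

theorem not_cons_suffix_self {b : Bool} {τ : List Bool} (h : (b :: τ) <:+ τ) : False := by
  have := h.length_le
  simp at this

open Classical in
/-- Height functions: finite depth content. -/
noncomputable def hgt (q : ℝ) (D : Set (List Bool)) : ℕ → List Bool → ℝ
  | 0, τ => if τ ∈ D then q ^ τ.length else 0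
  | k + 1, τ => if τ ∈ D then q ^ τ.length
      else min (q ^ τ.length) (hgt q D k (false :: τ) + hgt q D k (true :: τ))

variable {q : ℝ} {D : Set (List Bool)}

theorem hgt_mem (k : ℕ) {τ : List Bool} (h : τ ∈ D) : hgt q D k τ = q ^ τ.length := by
  cases k <;> simp [hgt, h]

theorem hgt_not_mem (k : ℕ) {τ : List Bool} (h : τ ∉ D) : hgt q D (k + 1) τ =
    min (q ^ τ.length) (hgt q D k (false :: τ) + hgt q D k (true :: τ)) := by
  simp [hgt, h]

theorem hgt_nonneg (hq : 0 < q) (k : ℕ) (τ : List Bool) : 0 ≤ hgt q D k τ := by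
  induction k generalizing τ with
  | zero =>
    by_cases h : τ ∈ D
    · rw [hgt_mem _ h]; positivity
    · simp [hgt, h]
  | succ k ih =>
    by_cases h : τ ∈ D
    · rw [hgt_mem _ h]; positivity
    · rw [hgt_not_mem _ h]
      exact le_min (by positivity) (add_nonneg (ih _) (ih _))

theorem hgt_le (hq : 0 < q) (k : ℕ) (τ : List Bool) : hgt q D k τ ≤ q ^ τ.length := by
  by_cases h : τ ∈ D
  · rw [hgt_mem _ h]
  · cases k with
    | zero => simp only [hgt, h, if_false]; positivity
    | succ k => rw [hgt_not_mem _ h]; exact min_le_left _ _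

theorem hgt_succ_le (hq : 0 < q) (k : ℕ) (τ : List Bool) : hgt q D k τ ≤ hgt q D (k + 1) τ := by
  induction k generalizing τ with
  | zero =>
    by_cases h : τ ∈ D
    · rw [hgt_mem _ h, hgt_mem _ h]
    · have : hgt q D 0 τ = 0 := by simp [hgt, h]
      rw [this]; exact hgt_nonneg hq _ _
  | succ k ih =>
    by_cases h : τ ∈ D
    · rw [hgt_mem _ h, hgt_mem _ h]
    · rw [hgt_not_mem _ h, hgt_not_mem _ h]
      exact min_le_min le_rfl (add_le_add (ih _) (ih _))

/-- The limit height. -/
noncomputable def hlim (q : ℝ) (D : Set (List Bool)) (τ : List Bool) : ℝ := ⨆ k, hgt q D k τ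

theorem hlim_bdd (hq : 0 < q) (τ : List Bool) : BddAbove (range fun k => hgt q D k τ) :=
  ⟨q ^ τ.length, by rintro _ ⟨k, rfl⟩; exact hgt_le hq k τ⟩

theorem tendsto_hgt (hq : 0 < q) (τ : List Bool) :
    Tendsto (fun k => hgt q D k τ) atTop (𝓝 (hlim q D τ)) :=
  tendsto_atTop_ciSup (monotone_nat_of_le_succ fun k => hgt_succ_le hq k τ) (hlim_bdd hq τ)

theorem hlim_le (hq : 0 < q) (τ : List Bool) : hlim q D τ ≤ q ^ τ.length :=
  ciSup_le fun k => hgt_le hq k τ

theorem hlim_nonneg (hq : 0 < q) (τ : List Bool) : 0 ≤ hlim q D τ :=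
  (hgt_nonneg hq 0 τ).trans (le_ciSup (hlim_bdd hq τ) 0)

theorem hlim_mem {τ : List Bool} (h : τ ∈ D) : hlim q D τ = q ^ τ.length := by
  unfold hlim
  simp_rw [hgt_mem _ h]
  exact ciSup_const

theorem hlim_rec (hq : 0 < q) {τ : List Bool} (h : τ ∉ D) : hlim q D τ =
    min (q ^ τ.length) (hlim q D (false :: τ) + hlim q D (true :: τ)) := by
  have h1 := (tendsto_add_atTop_iff_nat 1).2 (tendsto_hgt (D := D) hq τ)
  have h2 : Tendsto (fun k => hgt q D (k + 1) τ) atTop
      (𝓝 (min (q ^ τ.length) (hlim q D (false :: τ) + hlim q D (true :: τ)))) := by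
    simp_rw [hgt_not_mem _ h]
    exact tendsto_const_nhds.min ((tendsto_hgt hq _).add (tendsto_hgt hq _))
  exact tendsto_nhds_unique h1 h2

/-- `D` is not blocked by any supergale of small initial value. -/
def Full (q : ℝ) (D : Set (List Bool)) (σ : List Bool) : Prop :=
  ∀ Ψ, GoodAt σ Ψ → Ψ σ < q ^ σ.length → ∃ τ ∈ D, σ <:+ τ ∧
    ∀ τ', σ <:+ τ' → τ' <:+ τ → Ψ τ' < q ^ τ'.length

theorem hlim_of_full (hq : 0 < q) {σ : List Bool} (h : Full q D σ) :
    hlim q D σ = q ^ σ.length := by
  classical
  by_contra hne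
  have hlt : hlim q D σ < q ^ σ.length := lt_of_le_of_ne (hlim_le hq σ) hne
  let P : List Bool → Prop := fun τ => ∀ τ', σ <:+ τ' → τ' <:+ τ → τ' ≠ τ →
    hlim q D τ' < q ^ τ'.length
  let Ψ : List Bool → ℝ := fun τ => if P τ then hlim q D τ else 0
  have hP : ∀ b τ, σ <:+ τ → P (b :: τ) → P τ ∧ hlim q D τ < q ^ τ.length := by
    intro b τ hτ hb
    refine ⟨fun τ' h1 h2 h3 => hb τ' h1 (h2.trans (List.suffix_cons _ _)) ?_, ?_⟩
    · rintro rfl
      exact not_cons_suffix_self h2
    · exact hb τ hτ (List.suffix_cons _ _) (fun h => not_cons_suffix_self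
        (b := b) (τ := τ) (by rw [← h]))
  have hΨ : GoodAt σ Ψ := by
    intro τ hτ
    have h0 : 0 ≤ Ψ τ := by
      by_cases hc : P τ
      · simp only [Ψ, hc, if_true]; exact hlim_nonneg hq τ
      · simp [Ψ, hc]
    refine ⟨h0, ?_⟩
    have hle : ∀ b, Ψ (b :: τ) ≤ hlim q D (b :: τ) := by
      intro b
      by_cases hc : P (b :: τ)
      · simp [Ψ, hc]
      · simp only [Ψ, hc, if_false]; exact hlim_nonneg hq _
    by_cases hc : P τ ∧ hlim q D τ < q ^ τ.length
    · have hnD : τ ∉ D := by
        intro hD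
        rw [hlim_mem hD] at hc
        exact lt_irrefl _ hc.2
      have h1 : Ψ τ = hlim q D τ := by simp [Ψ, hc.1]
      have h2 := hlim_rec hq hnD
      have h3 : hlim q D τ = hlim q D (false :: τ) + hlim q D (true :: τ) := by
        rcases min_choice (q ^ τ.length) (hlim q D (false :: τ) + hlim q D (true :: τ)) with h | h
        · rw [h] at h2; exact absurd h2 (ne_of_lt hc.2)
        · rw [h] at h2; exact h2
      rw [h1, h3]
      exact add_le_add (hle _) (hle _)
    · have h1 : ∀ b, Ψ (b :: τ) = 0 := by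
        intro b
        have : ¬ P (b :: τ) := fun hb => hc (hP b τ hτ hb)
        simp [Ψ, this]
      rw [h1, h1, add_zero]
      exact h0
  have hPσ : P σ := by
    intro τ' h1 h2 h3
    exact absurd ((h2.eq_of_length_le h1.length_le)) h3
  have hΨσ : Ψ σ = hlim q D σ := by simp [Ψ, hPσ]
  obtain ⟨τ, hτD, hστ, hpath⟩ := h Ψ hΨ (by rw [hΨσ]; exact hlt)
  have key : ∀ n τ', τ'.length = n → σ <:+ τ' → τ' <:+ τ → hlim q D τ' < q ^ τ'.length := by
    intro n
    induction n using Nat.strong_induction_on with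
    | _ n ih =>
      intro τ' hn h1 h2
      have hPτ' : P τ' := by
        intro τ'' h3 h4 h5
        have hl : τ''.length < τ'.length :=
          lt_of_le_of_ne h4.length_le (fun hl => h5 (h4.eq_of_length hl))
        exact ih τ''.length (by omega) τ'' rfl h3 (h4.trans h2)
      have h6 := hpath τ' h1 h2
      simpa [Ψ, hPτ'] using h6
  have h1 := key τ.length τ rfl hστ (List.suffix_refl _)
  rw [hlim_mem hτD] at h1
  exact lt_irrefl _ h1

/-- The mass of the extensions of `v`. -/
noncomputable def mass (F : Finset (List Bool)) (μ : List Bool → ℝ) (v : List Bool) : ℝ := by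
  classical exact ∑ x ∈ F, if v <:+ x then μ x else 0

theorem mass_eq_total {F : Finset (List Bool)} {μ : List Bool → ℝ} {v : List Bool}
    (h : ∀ x ∈ F, v <:+ x) : mass F μ v = ∑ x ∈ F, μ x := by
  classical
  unfold mass
  apply Finset.sum_congr rfl
  intro x hx
  rw [if_pos (h x hx)]

theorem mass_eq_zero {F : Finset (List Bool)} {μ : List Bool → ℝ} {v : List Bool}
    (h : ∀ x ∈ F, ¬ v <:+ x) : mass F μ v = 0 := by
  classical
  unfold mass
  apply Finset.sum_eq_zero
  intro x hx
  rw [if_neg (h x hx)]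

theorem mass_nonneg {F : Finset (List Bool)} {μ : List Bool → ℝ} (h : ∀ x, 0 ≤ μ x)
    (v : List Bool) : 0 ≤ mass F μ v := by
  classical
  unfold mass
  apply Finset.sum_nonneg
  intro x _
  split
  · exact h x
  · exact le_rfl

/-- A Frostman weight system of total mass `M` on the extensions of `τ`. -/
structure Frost (q : ℝ) (D : Set (List Bool)) (τ : List Bool) (M : ℝ) (F : Finset (List Bool))
    (μ : List Bool → ℝ) : Prop where
  nonneg : ∀ x, 0 ≤ μ x
  mem : ∀ x ∈ F, x ∈ D ∧ τ <:+ x
  zero : ∀ x, x ∉ F → μ x = 0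
  total : ∑ x ∈ F, μ x = M
  bound : ∀ v, τ <:+ v → mass F μ v ≤ q ^ v.length

theorem exists_frost (hq : 0 < q) (k : ℕ) : ∀ (τ : List Bool) (M : ℝ), 0 ≤ M →
    M ≤ hgt q D k τ → ∃ F μ, Frost q D τ M F μ := by
  classical
  have hmemcase : ∀ (τ : List Bool) (M : ℝ), 0 ≤ M → M ≤ q ^ τ.length → τ ∈ D →
      ∃ F μ, Frost q D τ M F μ := by
    intro τ M hM0 hM hτ
    refine ⟨{τ}, fun x => if x = τ then M else 0, ?_, ?_, ?_, ?_, ?_⟩
    · intro x; split
      · exact hM0
      · exact le_rfl
    · intro x hx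
      rw [Finset.mem_singleton] at hx
      subst hx
      exact ⟨hτ, List.suffix_refl _⟩
    · intro x hx
      rw [Finset.mem_singleton] at hx
      simp [hx]
    · simp
    · intro v hv
      by_cases hvτ : v = τ
      · subst hvτ
        simp only [mass, Finset.sum_singleton, List.suffix_refl, if_true]
        exact hM
      · rw [mass_eq_zero]
        · positivity
        · intro x hx
          rw [Finset.mem_singleton] at hx
          subst hx
          intro h
          exact hvτ (h.eq_of_length_le hv.length_le)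
  induction k with
  | zero =>
    intro τ M hM0 hM
    by_cases hτ : τ ∈ D
    · rw [hgt_mem _ hτ] at hM
      exact hmemcase τ M hM0 hM hτ
    · have : hgt q D 0 τ = 0 := by simp [hgt, hτ]
      rw [this] at hM
      have hM1 : M = 0 := le_antisymm hM hM0
      subst hM1
      refine ⟨∅, fun _ => 0, fun _ => le_rfl, by simp, by simp, by simp, ?_⟩
      intro v _
      simp only [mass, Finset.sum_empty]
      positivity
  | succ k ih =>
    intro τ M hM0 hM
    by_cases hτ : τ ∈ D
    · rw [hgt_mem _ hτ] at hM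
      exact hmemcase τ M hM0 hM hτ
    · rw [hgt_not_mem _ hτ] at hM
      have hM1 : M ≤ q ^ τ.length := hM.trans (min_le_left _ _)
      have hM2 : M ≤ hgt q D k (false :: τ) + hgt q D k (true :: τ) := hM.trans (min_le_right _ _)
      have h0 := hgt_nonneg (D := D) hq k (false :: τ)
      have h1 := hgt_nonneg (D := D) hq k (true :: τ)
      obtain ⟨F₀, μ₀, H₀⟩ := ih (false :: τ) (min M (hgt q D k (false :: τ)))
        (le_min hM0 h0) (min_le_right _ _)
      obtain ⟨F₁, μ₁, H₁⟩ := ih (true :: τ) (M - min M (hgt q D k (false :: τ)))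
        (by linarith [min_le_left M (hgt q D k (false :: τ))])
        (by
          rcases min_choice M (hgt q D k (false :: τ)) with h | h
          · rw [h]; linarith
          · rw [h]; linarith)
      have sum0 : ∀ (f : List Bool → Prop) [DecidablePred f],
          (∑ x ∈ F₀ ∪ F₁, if f x then μ₀ x else 0) = ∑ x ∈ F₀, if f x then μ₀ x else 0 := by
        intro f _
        symm
        apply Finset.sum_subset Finset.subset_union_left
        intro x _ hx
        rw [H₀.zero x hx]
        simp
      have sum1 : ∀ (f : List Bool → Prop) [DecidablePred f],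
          (∑ x ∈ F₀ ∪ F₁, if f x then μ₁ x else 0) = ∑ x ∈ F₁, if f x then μ₁ x else 0 := by
        intro f _
        symm
        apply Finset.sum_subset Finset.subset_union_right
        intro x _ hx
        rw [H₁.zero x hx]
        simp
      have hmass : ∀ v, mass (F₀ ∪ F₁) (fun x => μ₀ x + μ₁ x) v = mass F₀ μ₀ v + mass F₁ μ₁ v := by
        intro v
        unfold mass
        rw [← sum0 (fun x => v <:+ x), ← sum1 (fun x => v <:+ x), ← Finset.sum_add_distrib]
        apply Finset.sum_congr rfl
        intro x _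
        split <;> simp
      have hmem : ∀ x ∈ F₀ ∪ F₁, x ∈ D ∧ τ <:+ x := by
        intro x hx
        rcases Finset.mem_union.1 hx with hx | hx
        · exact ⟨(H₀.mem x hx).1, cons_suffix (H₀.mem x hx).2⟩
        · exact ⟨(H₁.mem x hx).1, cons_suffix (H₁.mem x hx).2⟩
      have htot : ∑ x ∈ F₀ ∪ F₁, (μ₀ x + μ₁ x) = M := by
        have h2 := sum0 (fun _ => True)
        have h3 := sum1 (fun _ => True)
        simp only [if_true] at h2 h3
        rw [Finset.sum_add_distrib, h2, h3, H₀.total, H₁.total]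
        ring
      refine ⟨F₀ ∪ F₁, fun x => μ₀ x + μ₁ x, fun x => add_nonneg (H₀.nonneg x) (H₁.nonneg x),
        hmem, ?_, htot, ?_⟩
      · intro x hx
        rw [Finset.mem_union, not_or] at hx
        rw [H₀.zero x hx.1, H₁.zero x hx.2, add_zero]
      · intro v hv
        rcases suffix_cases hv with rfl | hv0 | hv1
        · rw [mass_eq_total (fun x hx => (hmem x hx).2), htot]
          exact hM1
        · rw [hmass, mass_eq_zero (F := F₁), add_zero]
          · exact H₀.bound v hv0
          · intro x hx hvx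
            exact not_both (hv0.trans hvx) (H₁.mem x hx).2
        · rw [hmass, mass_eq_zero (F := F₀), zero_add]
          · exact H₁.bound v hv1
          · intro x hx hvx
            exact not_both (H₀.mem x hx).2 (hv1.trans hvx)

theorem exists_frost_of_full (hq : 0 < q) {σ : List Bool} (h : Full q D σ) :
    ∃ F μ, Frost q D σ (q ^ σ.length / 2) F μ := by
  have h1 := tendsto_hgt (D := D) hq σ
  rw [hlim_of_full hq h] at h1
  have h2 : q ^ σ.length / 2 < q ^ σ.length := by
    have : 0 < q ^ σ.length := by positivity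
    linarith
  obtain ⟨k, hk⟩ := (h1.eventually (lt_mem_nhds h2)).exists
  exact exists_frost hq k σ _ (by positivity) hk.le

end Pool.Agent.Lib.MP_d9d12d_lc
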