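import Mathlib

/-!
# The supergale topology on Cantor space

For `1/2 < q < 1` (with `q = 2^{-s}`) we refine the usual topology of Cantor space by the sets
`Box q σ G`, where `G` is a superadditive function on the binary strings extending `σ`.
-/

namespace Pool.Agent.Lib.MP_d9d12d_lc

open Set Filter Topology PiNat

/-- Strings are stored in reversed order: the children of `τ` are `b :: τ`, and `σ <:+ τ` means
that `τ` extends `σ`. -/
def GoodAt (σ : List Bool) (G : List Bool → ℝ) : Prop :=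
  ∀ τ, σ <:+ τ → 0 ≤ G τ ∧ G (false :: τ) + G (true :: τ) ≤ G τ

theorem GoodAt.mono {σ τ : List Bool} {G : List Bool → ℝ} (h : GoodAt σ G) (hst : σ <:+ τ) :
    GoodAt τ G := fun ρ hρ => h ρ (hst.trans hρ)

theorem GoodAt.add {σ : List Bool} {G H : List Bool → ℝ} (hG : GoodAt σ G) (hH : GoodAt σ H) :
    GoodAt σ (fun τ => G τ + H τ) := by
  intro τ hτ
  have h1 := hG τ hτ
  have h2 := hH τ hτ
  constructor
  · exact add_nonneg h1.1 h2.1
  · linarith [h1.2, h2.2]

theorem GoodAt.smul {σ : List Bool} {G : List Bool → ℝ} (hG : GoodAt σ G) {c : ℝ} (hc : 0 ≤ c) :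
    GoodAt σ (fun τ => c * G τ) := by
  intro τ hτ
  have h1 := hG τ hτ
  constructor
  · exact mul_nonneg hc h1.1
  · have := mul_le_mul_of_nonneg_left h1.2 hc
    linarith

theorem goodAt_zero (σ : List Bool) : GoodAt σ (fun _ => 0) := by
  intro τ _
  simp

theorem res_suffix_res (x : ℕ → Bool) {m n : ℕ} (h : m ≤ n) : res x m <:+ res x n := by
  induction n, h using Nat.le_induction with
  | base => exact List.suffix_refl _
  | succ n _ ih => exact ih.trans (List.suffix_cons _ _)

theorem suffix_res {x : ℕ → Bool} {n : ℕ} {τ : List Bool} (h : τ <:+ res x n) :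
    τ = res x τ.length ∧ τ.length ≤ n := by
  have hl : τ.length ≤ n := by simpa using h.length_le
  have h2 := res_suffix_res x hl
  refine ⟨?_, hl⟩
  exact (List.suffix_of_suffix_length_le h h2 (by simp)).eq_of_length (by simp)

theorem res_congr {x y : ℕ → Bool} {m n : ℕ} (h : res x n = res y n) (hm : m ≤ n) :
    res x m = res y m := by
  rw [res_eq_res] at h ⊢
  intro k hk
  exact h (lt_of_lt_of_le hk hm)

theorem exists_res_eq (σ : List Bool) : ∃ x : ℕ → Bool, res x σ.length = σ := by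
  induction σ with
  | nil => exact ⟨fun _ => false, rfl⟩
  | cons b σ ih =>
    obtain ⟨x, hx⟩ := ih
    refine ⟨Function.update x σ.length b, ?_⟩
    rw [List.length_cons, res_succ]
    congr 1
    · simp
    · rw [← hx]
      rw [res_length]
      rw [res_eq_res]
      intro m hm
      rw [Function.update_of_ne (by omega)]

/-- The basic sets of the topology. -/
def Box (q : ℝ) (σ : List Bool) (G : List Bool → ℝ) : Set (ℕ → Bool) :=
  {x | res x σ.length = σ ∧ (∀ n, σ.length ≤ n → G (res x n) < q ^ n) ∧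
    Tendsto (fun n => G (res x n) / q ^ n) atTop (𝓝 0)}

theorem box_nonempty {q : ℝ} (hq : 1 / 2 < q) {σ : List Bool} {G : List Bool → ℝ}
    (hG : GoodAt σ G) (h : G σ < q ^ σ.length) : (Box q σ G).Nonempty := by
  classical
  obtain ⟨x0, hx0⟩ := exists_res_eq σ
  let nxt : List Bool → Bool := fun τ => if G (false :: τ) ≤ G (true :: τ) then false else true
  let path : ℕ → List Bool := fun k => Nat.rec σ (fun _ τ => nxt τ :: τ) k
  have path_succ : ∀ k, path (k + 1) = nxt (path k) :: path k := fun k => rfl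
  have hsuf : ∀ k, σ <:+ path k := by
    intro k
    induction k with
    | zero => exact List.suffix_refl _
    | succ k ih => rw [path_succ]; exact ih.trans (List.suffix_cons _ _)
  have hhalf : ∀ k, G (path (k + 1)) ≤ G (path k) / 2 := by
    intro k
    have h1 := (hG _ (hsuf k)).2
    rw [path_succ]
    by_cases hc : G (false :: path k) ≤ G (true :: path k)
    · have : nxt (path k) = false := by simp [nxt, hc]
      rw [this]; linarith
    · have : nxt (path k) = true := by simp [nxt, hc]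
      rw [this]; push Not at hc; linarith
  have hbound : ∀ k, G (path k) ≤ G σ / 2 ^ k := by
    intro k
    induction k with
    | zero => simp [path]
    | succ k ih =>
      refine (hhalf k).trans ?_
      rw [pow_succ, ← div_div]
      linarith
  let x : ℕ → Bool := fun n => if n < σ.length then x0 n else nxt (path (n - σ.length))
  have hx : ∀ k, res x (σ.length + k) = path k := by
    intro k
    induction k with
    | zero =>
      show res x σ.length = σ
      conv_rhs => rw [← hx0]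
      rw [res_eq_res]
      intro m hm
      simp [x, hm]
    | succ k ih =>
      rw [path_succ, ← add_assoc, res_succ, ih]
      congr 1
      simp [x]
  have hq0 : 0 < q := by linarith
  refine ⟨x, ?_, ?_, ?_⟩
  · have := hx 0
    simpa [path] using this
  · intro n hn
    obtain ⟨k, rfl⟩ := Nat.exists_eq_add_of_le hn
    rw [hx, pow_add]
    calc G (path k) ≤ G σ / 2 ^ k := hbound k
      _ < q ^ σ.length / 2 ^ k := by gcongr
      _ = q ^ σ.length * (1 / 2) ^ k := by rw [one_div, inv_pow]; rfl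
      _ ≤ q ^ σ.length * q ^ k := by gcongr
  · have hlim : Tendsto (fun k : ℕ => G σ / q ^ σ.length * (1 / (2 * q)) ^ k) atTop (𝓝 0) := by
      rw [← mul_zero (G σ / q ^ σ.length)]
      apply Tendsto.const_mul
      apply tendsto_pow_atTop_nhds_zero_of_lt_one
      · positivity
      · rw [div_lt_one (by positivity)]; linarith
    rw [← tendsto_add_atTop_iff_nat σ.length]
    refine squeeze_zero ?_ ?_ hlim
    · intro k
      rw [add_comm k, hx]
      exact div_nonneg (hG _ (hsuf k)).1 (by positivity)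
    · intro k
      rw [add_comm k, hx, pow_add]
      calc G (path k) / (q ^ σ.length * q ^ k) ≤ G σ / 2 ^ k / (q ^ σ.length * q ^ k) := by
            gcongr; exact hbound k
        _ = G σ / q ^ σ.length * (1 / (2 * q)) ^ k := by
            rw [one_div, inv_pow, mul_pow]
            field_simp

theorem box_subset {q : ℝ} (hq : 0 < q) {σ : List Bool} {G G' : List Bool → ℝ} {x : ℕ → Bool}
    (hG : GoodAt σ G) (hx : x ∈ Box q σ G) {N : ℕ} (hN : σ.length ≤ N)
    (hle : ∀ τ, res x N <:+ τ → G τ ≤ G' τ) : Box q (res x N) G' ⊆ Box q σ G := by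
  rintro y ⟨h1, h2, h3⟩
  rw [res_length] at h1 h2
  have hσN : σ = res y σ.length := by
    rw [res_congr h1 hN]; exact hx.1.symm
  have hext : ∀ n, N ≤ n → res x N <:+ res y n := by
    intro n hn
    rw [← h1]; exact res_suffix_res y hn
  refine ⟨hσN.symm, ?_, ?_⟩
  · intro n hn
    rcases lt_or_ge n N with h | h
    · rw [res_congr h1 h.le]; exact hx.2.1 n hn
    · exact (hle _ (hext n h)).trans_lt (h2 n h)
  · refine squeeze_zero' ?_ ?_ h3
    · filter_upwards [eventually_ge_atTop σ.length] with n hn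
      refine div_nonneg (hG _ ?_).1 (by positivity)
      rw [hσN]; exact res_suffix_res y hn
    · filter_upwards [eventually_ge_atTop N] with n hn
      have := hle _ (hext n hn)
      gcongr

theorem box_mono {q : ℝ} (hq : 0 < q) {σ : List Bool} {G G' : List Bool → ℝ}
    (hG : GoodAt σ G) (hle : ∀ τ, σ <:+ τ → G τ ≤ G' τ) : Box q σ G' ⊆ Box q σ G := by
  rintro y ⟨h1, h2, h3⟩
  have hext : ∀ n, σ.length ≤ n → σ <:+ res y n := by
    intro n hn
    conv_lhs => rw [← h1]
    exact res_suffix_res y hn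
  refine ⟨h1, fun n hn => (hle _ (hext n hn)).trans_lt (h2 n hn), ?_⟩
  refine squeeze_zero' ?_ ?_ h3
  · filter_upwards [eventually_ge_atTop σ.length] with n hn
    exact div_nonneg (hG _ (hext n hn)).1 (by positivity)
  · filter_upwards [eventually_ge_atTop σ.length] with n hn
    have := hle _ (hext n hn)
    gcongr

/-- Open sets of the supergale topology. -/
def GOpen (q : ℝ) (U : Set (ℕ → Bool)) : Prop :=
  ∀ x ∈ U, ∃ σ G, GoodAt σ G ∧ x ∈ Box q σ G ∧ Box q σ G ⊆ U

theorem gopen_univ {q : ℝ} (hq : 0 < q) : GOpen q univ := by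
  intro x _
  refine ⟨[], fun _ => 0, goodAt_zero _, ⟨rfl, ?_, ?_⟩, subset_univ _⟩
  · intro n _
    exact pow_pos hq n
  · simp

theorem gopen_inter {q : ℝ} (hq : 0 < q) {U V : Set (ℕ → Bool)} (hU : GOpen q U)
    (hV : GOpen q V) : GOpen q (U ∩ V) := by
  intro x hx
  obtain ⟨σ₁, G₁, hG₁, hx₁, hs₁⟩ := hU x hx.1
  obtain ⟨σ₂, G₂, hG₂, hx₂, hs₂⟩ := hV x hx.2
  have hlim : Tendsto (fun n => G₁ (res x n) / (q : ℝ) ^ n + G₂ (res x n) / (q : ℝ) ^ n)
      atTop (𝓝 0) := by
    simpa using hx₁.2.2.add hx₂.2.2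
  have hev := hlim.eventually (gt_mem_nhds (zero_lt_one))
  obtain ⟨N, hN⟩ := eventually_atTop.1 (hev.and
    ((eventually_ge_atTop σ₁.length).and (eventually_ge_atTop σ₂.length)))
  have hN1 := (hN N le_rfl).2.1
  have hN2 := (hN N le_rfl).2.2
  have g1 : GoodAt (res x N) G₁ := hG₁.mono (by
    conv_lhs => rw [← hx₁.1]
    exact res_suffix_res x hN1)
  have g2 : GoodAt (res x N) G₂ := hG₂.mono (by
    conv_lhs => rw [← hx₂.1]
    exact res_suffix_res x hN2)
  refine ⟨res x N, fun τ => G₁ τ + G₂ τ, g1.add g2, ⟨by simp, ?_, ?_⟩, ?_⟩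
  · intro n hn
    rw [res_length] at hn
    have h := (hN n hn).1
    rw [← add_div, div_lt_one (by positivity)] at h
    exact h
  · simpa [add_div] using hlim
  · apply subset_inter
    · refine (box_subset hq hG₁ hx₁ hN1 ?_).trans hs₁
      intro τ hτ
      linarith [(g2 τ hτ).1]
    · refine (box_subset hq hG₂ hx₂ hN2 ?_).trans hs₂
      intro τ hτ
      linarith [(g1 τ hτ).1]

theorem gopen_sUnion {q : ℝ} {S : Set (Set (ℕ → Bool))} (hS : ∀ U ∈ S, GOpen q U) :
    GOpen q (⋃₀ S) := by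
  intro x hx
  obtain ⟨U, hU, hxU⟩ := hx
  obtain ⟨σ, G, h1, h2, h3⟩ := hS U hU x hxU
  exact ⟨σ, G, h1, h2, h3.trans (subset_sUnion_of_mem hU)⟩

theorem gopen_box {q : ℝ} {σ : List Bool} {G : List Bool → ℝ} (hG : GoodAt σ G) :
    GOpen q (Box q σ G) := by
  intro x hx
  exact ⟨σ, G, hG, hx, subset_rfl⟩

theorem gopen_of_isOpen {q : ℝ} (hq : 0 < q) {U : Set (ℕ → Bool)} (hU : IsOpen U) :
    GOpen q U := by
  intro x hx
  obtain ⟨v, ⟨y, n, rfl⟩, h'x, h's⟩ :=
    (isTopologicalBasis_cylinders fun _ => Bool).exists_subset_of_mem_open hx hU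
  refine ⟨res x n, fun _ => 0, goodAt_zero _, ⟨by simp, ?_, ?_⟩, ?_⟩
  · intro k _
    exact pow_pos hq k
  · simp
  · rintro z ⟨hz, -⟩
    rw [res_length] at hz
    apply h's
    rw [mem_cylinder_iff_eq] at h'x
    rw [← h'x, cylinder_eq_res]
    exact hz

/-- A point of an open set has arbitrarily small box neighbourhoods in it. -/
theorem exists_box_of_mem {q : ℝ} (hq : 0 < q) {U : Set (ℕ → Bool)} (hU : GOpen q U)
    {z : ℕ → Bool} (hz : z ∈ U) :
    ∃ G N, (∀ n, N ≤ n → GoodAt (res z n) G ∧ Box q (res z n) G ⊆ U) ∧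
      Tendsto (fun n => G (res z n) / q ^ n) atTop (𝓝 0) := by
  obtain ⟨σ, G, hG, hzσ, hs⟩ := hU z hz
  refine ⟨G, σ.length, ?_, hzσ.2.2⟩
  intro n hn
  refine ⟨hG.mono ?_, (box_subset hq hG hzσ hn fun _ _ => le_rfl).trans hs⟩
  conv_lhs => rw [← hzσ.1]
  exact res_suffix_res z hn

/-- `D` meets every nonempty box. -/
def GDense (q : ℝ) (D : Set (ℕ → Bool)) : Prop :=
  ∀ σ G, GoodAt σ G → G σ < q ^ σ.length → (Box q σ G ∩ D).Nonempty

theorem step_baire {q : ℝ} (hq0 : 0 < q) {σ : List Bool} {G : List Bool → ℝ}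
    (hG : GoodAt σ G) (h : G σ < q ^ σ.length) {D : Set (ℕ → Bool)} (hDo : GOpen q D)
    (hDd : GDense q D) (K : ℝ) (hK : 0 ≤ K) :
    ∃ σ' G', GoodAt σ' G' ∧ G' σ' < q ^ σ'.length ∧ σ <:+ σ' ∧ σ.length < σ'.length ∧
      (∀ τ, σ' <:+ τ → K * G τ ≤ G' τ ∧ G τ ≤ G' τ) ∧ Box q σ' G' ⊆ Box q σ G ∩ D := by
  obtain ⟨z, hzB, hzD⟩ := hDd σ G hG h
  obtain ⟨Ψ, N, hΨ, hlim⟩ := exists_box_of_mem hq0 (gopen_inter hq0 (gopen_box hG) hDo)
    ⟨hzB, hzD⟩
  have hlim2 : Tendsto (fun n => (K + 1) * (G (res z n) / q ^ n) +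
      Ψ (res z n) / q ^ n) atTop (𝓝 0) := by
    simpa using (hzB.2.2.const_mul (K + 1)).add hlim
  obtain ⟨M, hM⟩ := eventually_atTop.1 (hlim2.eventually (gt_mem_nhds zero_lt_one))
  obtain ⟨n, hnM, hnN, hnσ⟩ : ∃ n, M ≤ n ∧ N ≤ n ∧ σ.length < n :=
    ⟨max (max M N) (σ.length + 1), by omega, by omega, by omega⟩
  have hσn : σ <:+ res z n := by
    conv_lhs => rw [← hzB.1]
    exact res_suffix_res z hnσ.le
  have hGn := hG.mono hσn
  have hΨn := (hΨ n hnN).1
  refine ⟨res z n, fun τ => (K + 1) * G τ + Ψ τ, (hGn.smul (by linarith)).add hΨn, ?_, hσn,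
    by simpa using hnσ, ?_, ?_⟩
  · have h1 := hM n hnM
    rw [← mul_div_assoc, ← add_div, div_lt_one (pow_pos hq0 n)] at h1
    rw [res_length]
    exact h1
  · intro τ hτ
    have h1 := (hGn τ hτ).1
    have h2 := (hΨn τ hτ).1
    constructor
    · nlinarith
    · nlinarith
  · intro y hy
    apply (hΨ n hnN).2
    obtain ⟨h1, h2, h3⟩ := hy
    rw [res_length] at h1 h2
    refine ⟨by rw [res_length]; exact h1, ?_, ?_⟩
    · intro k hk
      rw [res_length] at hk
      refine lt_of_le_of_lt ?_ (h2 k hk)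
      have hs : res z n <:+ res y k := by rw [← h1]; exact res_suffix_res y hk
      have := (hGn _ hs).1
      nlinarith
    · refine squeeze_zero' ?_ ?_ h3
      · filter_upwards [eventually_ge_atTop n] with k hk
        have hs : res z n <:+ res y k := by rw [← h1]; exact res_suffix_res y hk
        exact div_nonneg (hΨn _ hs).1 (pow_pos hq0 k).le
      · filter_upwards [eventually_ge_atTop n] with k hk
        have hs : res z n <:+ res y k := by rw [← h1]; exact res_suffix_res y hk
        have h4 := (hGn _ hs).1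
        have h5 := pow_pos hq0 k
        apply div_le_div_of_nonneg_right _ h5.le
        nlinarith

/-- The Baire category theorem for the supergale topology. -/
theorem gale_baire {q : ℝ} (hq : 1 / 2 < q) {D : ℕ → Set (ℕ → Bool)}
    (hDo : ∀ i, GOpen q (D i)) (hDd : ∀ i, GDense q (D i)) {U : Set (ℕ → Bool)}
    (hU : GOpen q U) (hne : U.Nonempty) : (U ∩ ⋂ i, D i).Nonempty := by
  have hq0 : 0 < q := by linarith
  obtain ⟨z, hz⟩ := hne
  obtain ⟨G₀, N, hG₀, hlim₀⟩ := exists_box_of_mem hq0 hU hz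
  obtain ⟨M, hM⟩ := eventually_atTop.1 (hlim₀.eventually (gt_mem_nhds zero_lt_one))
  obtain ⟨n₀, hn₀M, hn₀N⟩ : ∃ n, M ≤ n ∧ N ≤ n := ⟨max M N, by omega, by omega⟩
  have hstart : G₀ (res z n₀) < q ^ (res z n₀).length := by
    have h1 := hM n₀ hn₀M
    rw [div_lt_one (pow_pos hq0 _)] at h1
    rw [res_length]; exact h1
  let C : Type := {p : List Bool × (List Bool → ℝ) // GoodAt p.1 p.2 ∧ p.2 p.1 < q ^ p.1.length}
  have hstep : ∀ (i : ℕ) (c : C), ∃ c' : C, c.1.1 <:+ c'.1.1 ∧ c.1.1.length < c'.1.1.length ∧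
      (∀ τ, c'.1.1 <:+ τ → ((i : ℝ) + 1) * c.1.2 τ ≤ c'.1.2 τ ∧ c.1.2 τ ≤ c'.1.2 τ) ∧
      Box q c'.1.1 c'.1.2 ⊆ Box q c.1.1 c.1.2 ∩ D i := by
    intro i c
    obtain ⟨σ', G', h1, h2, h3, h4, h5, h6⟩ := step_baire hq0 c.2.1 c.2.2 (hDo i) (hDd i)
      ((i : ℝ) + 1) (by positivity)
    exact ⟨⟨(σ', G'), h1, h2⟩, h3, h4, h5, h6⟩
  choose nxt hn1 hn2 hn3 hn4 using hstep
  let s : ℕ → C := fun i => Nat.rec ⟨(res z n₀, G₀), (hG₀ n₀ hn₀N).1, hstart⟩
    (fun i c => nxt i c) i
  have s_succ : ∀ i, s (i + 1) = nxt i (s i) := fun i => rfl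
  have hlen : ∀ i, i ≤ (s i).1.1.length := by
    intro i
    induction i with
    | zero => exact Nat.zero_le _
    | succ i ih => rw [s_succ]; have := hn2 i (s i); omega
  have hsuf : ∀ i j, i ≤ j → (s i).1.1 <:+ (s j).1.1 := by
    intro i j hij
    induction j, hij using Nat.le_induction with
    | base => exact List.suffix_refl _
    | succ j _ ih => rw [s_succ]; exact ih.trans (hn1 j (s j))
  have hbox : ∀ i j, i ≤ j → Box q (s j).1.1 (s j).1.2 ⊆ Box q (s i).1.1 (s i).1.2 := by
    intro i j hij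
    induction j, hij using Nat.le_induction with
    | base => exact subset_rfl
    | succ j _ ih =>
      rw [s_succ]; exact ((hn4 j (s j)).trans inter_subset_left).trans ih
  have hGle : ∀ i j, i ≤ j → ∀ τ, (s j).1.1 <:+ τ → (s i).1.2 τ ≤ (s j).1.2 τ := by
    intro i j hij
    induction j, hij using Nat.le_induction with
    | base => intro τ _; exact le_rfl
    | succ j _ ih =>
      intro τ hτ
      rw [s_succ] at hτ ⊢
      exact (ih τ ((hn1 j (s j)).trans hτ)).trans (hn3 j (s j) τ hτ).2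
  have hy : ∀ i, (Box q (s i).1.1 (s i).1.2).Nonempty := fun i =>
    box_nonempty hq (s i).2.1 (s i).2.2
  choose y hy using hy
  let x : ℕ → Bool := fun k => y (k + 1) k
  have hres : ∀ i j, i ≤ j → res (y j) (s i).1.1.length = (s i).1.1 := fun i j hij =>
    (hbox i j hij (hy j)).1
  have hxy : ∀ i, res x (s i).1.1.length = (s i).1.1 := by
    intro i
    rw [← hres i i le_rfl, res_length, res_eq_res]
    intro k hk
    show y (k + 1) k = y i k
    rcases le_total i (k + 1) with h | h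
    · have h1 := hres i (k + 1) h
      have h2 := hres i i le_rfl
      rw [← h2, res_length, res_eq_res] at h1
      exact h1 hk
    · have h1 := hres (k + 1) i h
      have h2 := hres (k + 1) (k + 1) le_rfl
      rw [← h2, res_length, res_eq_res] at h1
      exact (h1 (by have := hlen (k + 1); omega)).symm
  have hxn : ∀ n i, n ≤ i → res x n = res (y i) n := by
    intro n i hni
    have h1 : res x (s i).1.1.length = res (y i) (s i).1.1.length := by
      rw [hxy i, hres i i le_rfl]
    exact res_congr h1 (by have := hlen i; omega)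
  have hlt : ∀ i n, (s i).1.1.length ≤ n → (s i).1.2 (res x n) < q ^ n := by
    intro i n hn
    rw [hxn n (max i n) (le_max_right _ _)]
    exact (hbox i (max i n) (le_max_left _ _) (hy _)).2.1 n hn
  have hxbox : ∀ i, x ∈ Box q (s i).1.1 (s i).1.2 := by
    intro i
    refine ⟨hxy i, hlt i, ?_⟩
    rw [Metric.tendsto_atTop]
    intro ε hε
    obtain ⟨k, hk⟩ := exists_nat_one_div_lt hε
    obtain ⟨j, hij, hkj⟩ : ∃ j, i ≤ j ∧ k ≤ j := ⟨max i k, by omega, by omega⟩
    have hj : 1 / ((j : ℝ) + 1) < ε := by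
      refine lt_of_le_of_lt ?_ hk
      have : (k : ℝ) ≤ j := by exact_mod_cast hkj
      exact one_div_le_one_div_of_le (by positivity) (by linarith)
    refine ⟨(s (j + 1)).1.1.length, ?_⟩
    intro n hn
    have hs : (s (j + 1)).1.1 <:+ res x n := by
      conv_lhs => rw [← hxy (j + 1)]
      exact res_suffix_res x hn
    have h1 := (hn3 j (s j) (res x n) hs).1
    have h2 := hlt (j + 1) n hn
    rw [s_succ] at h2
    have hsj : (s j).1.1 <:+ res x n := (hsuf j (j + 1) (Nat.le_succ _)).trans hs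
    have h3 := hGle i j hij (res x n) hsj
    have hsi : (s i).1.1 <:+ res x n := (hsuf i j hij).trans hsj
    have h4 := ((s i).2.1 _ hsi).1
    have hqn := pow_pos hq0 n
    rw [Real.dist_eq, sub_zero, abs_of_nonneg (div_nonneg h4 hqn.le)]
    refine lt_of_le_of_lt ?_ hj
    rw [div_le_div_iff₀ hqn (by positivity)]
    have h5 : ((j : ℝ) + 1) * (s i).1.2 (res x n) ≤ ((j : ℝ) + 1) * (s j).1.2 (res x n) :=
      mul_le_mul_of_nonneg_left h3 (by positivity)
    linarith
  refine ⟨x, ?_, ?_⟩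
  · exact (hG₀ n₀ hn₀N).2 (hxbox 0)
  · rw [mem_iInter]
    intro i
    exact (hn4 i (s i) (hxbox (i + 1))).2

/-- The supergale topology. -/
@[instance_reducible]
def galeTop (q : Set.Ioo (1 / 2 : ℝ) 1) : TopologicalSpace (ℕ → Bool) where
  IsOpen U := GOpen q U
  isOpen_univ := gopen_univ (by linarith [q.2.1])
  isOpen_inter := fun _ _ hU hV => gopen_inter (by linarith [q.2.1]) hU hV
  isOpen_sUnion := fun _ hS => gopen_sUnion hS

theorem gdense_of_dense (q : Set.Ioo (1 / 2 : ℝ) 1) {D : Set (ℕ → Bool)}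
    (hD : @Dense _ (galeTop q) D) : GDense q D := by
  intro σ G hG h
  exact @Dense.inter_open_nonempty _ (galeTop q) _ hD _ (gopen_box hG) (box_nonempty q.2.1 hG h)

theorem dense_of_gdense (q : Set.Ioo (1 / 2 : ℝ) 1) {D : Set (ℕ → Bool)}
    (hD : GDense q D) : @Dense _ (galeTop q) D := by
  let := galeTop q
  rw [dense_iff_inter_open]
  rintro U hU ⟨x, hx⟩
  obtain ⟨σ, G, hG, hx, hs⟩ := hU x hx
  have h1 := hx.2.1 σ.length le_rfl
  rw [hx.1] at h1
  exact (hD σ G hG h1).mono (inter_subset_inter_left _ hs)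

theorem galeTop_baire (q : Set.Ioo (1 / 2 : ℝ) 1) : @BaireSpace _ (galeTop q) := by
  let := galeTop q
  refine ⟨fun D hDo hDd => ?_⟩
  rw [dense_iff_inter_open]
  intro U hU hne
  exact gale_baire q.2.1 hDo (fun i => gdense_of_dense q (hDd i)) hU hne

theorem galeTop_le (q : Set.Ioo (1 / 2 : ℝ) 1) :
    galeTop q ≤ (inferInstance : TopologicalSpace (ℕ → Bool)) := by
  intro U hU
  exact gopen_of_isOpen (by linarith [q.2.1]) hU

end Pool.Agent.Lib.MP_d9d12d_lc
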