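import Mathlib

/-!
# Selecting a small set of labels by rounding a quadratic multi-affine functional
-/

namespace Pool.Agent.Lib.MP_d9d12d_lc

open Finset

/-- Rounding: a functional that is affine in each coordinate can be rounded to a 0/1 point
without decreasing it. -/
theorem exists_round {ι : Type*} [DecidableEq ι] (Φ : (ι → ℝ) → ℝ)
    (hΦ : ∀ (x : ι → ℝ) (i : ι), ∃ a b : ℝ, ∀ t : ℝ, Φ (Function.update x i t) = a + b * t)
    (R : Finset ι) (p : ι → ℝ) (hp : ∀ i, 0 ≤ p i ∧ p i ≤ 1) :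
    ∃ x : ι → ℝ, (∀ i ∈ R, x i = 0 ∨ x i = 1) ∧ (∀ i ∉ R, x i = p i) ∧
      (∀ i, 0 ≤ x i ∧ x i ≤ 1) ∧ Φ p ≤ Φ x := by
  induction R using Finset.induction_on with
  | empty => exact ⟨p, by simp, by simp, hp, le_rfl⟩
  | insert j R hj ih =>
    obtain ⟨x, h1, h2, h3, h4⟩ := ih
    obtain ⟨a, b, hab⟩ := hΦ x j
    have hx : Φ x = a + b * x j := by
      have := hab (x j)
      rwa [Function.update_eq_self] at this
    have key : ∃ t : ℝ, (t = 0 ∨ t = 1) ∧ Φ x ≤ Φ (Function.update x j t) := by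
      rcases le_total 0 b with hb | hb
      · refine ⟨1, Or.inr rfl, ?_⟩
        rw [hab, hx]
        have := (h3 j).2
        nlinarith
      · refine ⟨0, Or.inl rfl, ?_⟩
        rw [hab, hx]
        have := (h3 j).1
        nlinarith
    obtain ⟨t, ht, hΦt⟩ := key
    refine ⟨Function.update x j t, ?_, ?_, ?_, h4.trans hΦt⟩
    · intro i hi
      by_cases hij : i = j
      · subst hij; simpa using ht
      · rw [Function.update_of_ne hij]
        exact h1 i ((Finset.mem_insert.1 hi).resolve_left hij)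
    · intro i hi
      rw [Finset.mem_insert, not_or] at hi
      rw [Function.update_of_ne hi.1]
      exact h2 i hi.2
    · intro i
      by_cases hij : i = j
      · subst hij
        rcases ht with rfl | rfl <;> simp
      · rw [Function.update_of_ne hij]
        exact h3 i

/-- The quadratic functional with the diagonal linearised. -/
noncomputable def quad {ι κ : Type*} (R : Finset ι) (S : Finset κ) (c : κ → ℝ) (W : κ → ι → ℝ)
    (x : ι → ℝ) : ℝ :=
  ∑ v ∈ S, c v * ((∑ i ∈ R, x i * W v i) ^ 2 + ∑ i ∈ R, (x i - x i ^ 2) * W v i ^ 2)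

theorem quad_affine {ι κ : Type*} [DecidableEq ι] (R : Finset ι) (S : Finset κ) (c : κ → ℝ)
    (W : κ → ι → ℝ) (x : ι → ℝ) (j : ι) :
    ∃ a b : ℝ, ∀ t : ℝ, quad R S c W (Function.update x j t) = a + b * t := by
  by_cases hj : j ∈ R
  · let s : κ → ℝ := fun v => ∑ i ∈ R.erase j, x i * W v i
    let d : κ → ℝ := fun v => ∑ i ∈ R.erase j, (x i - x i ^ 2) * W v i ^ 2
    refine ⟨∑ v ∈ S, c v * (s v ^ 2 + d v), ∑ v ∈ S, c v * (2 * s v * W v j + W v j ^ 2), ?_⟩
    intro t
    unfold quad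
    rw [Finset.sum_mul, ← Finset.sum_add_distrib]
    apply Finset.sum_congr rfl
    intro v _
    have h1 : ∑ i ∈ R, Function.update x j t i * W v i = t * W v j + s v := by
      rw [← Finset.add_sum_erase R _ hj]
      congr 1
      · simp
      · apply Finset.sum_congr rfl
        intro i hi
        rw [Function.update_of_ne (Finset.ne_of_mem_erase hi)]
    have h2 : ∑ i ∈ R, (Function.update x j t i - Function.update x j t i ^ 2) * W v i ^ 2 =
        (t - t ^ 2) * W v j ^ 2 + d v := by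
      rw [← Finset.add_sum_erase R _ hj]
      congr 1
      · simp
      · apply Finset.sum_congr rfl
        intro i hi
        rw [Function.update_of_ne (Finset.ne_of_mem_erase hi)]
    rw [h1, h2]
    ring
  · refine ⟨quad R S c W x, 0, ?_⟩
    intro t
    unfold quad
    rw [zero_mul, add_zero]
    apply Finset.sum_congr rfl
    intro v _
    congr 2
    · congr 1
      apply Finset.sum_congr rfl
      intro i hi
      rw [Function.update_of_ne (by rintro rfl; exact hj hi)]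
    · apply Finset.sum_congr rfl
      intro i hi
      rw [Function.update_of_ne (by rintro rfl; exact hj hi)]

theorem lin_affine {ι : Type*} [DecidableEq ι] (R : Finset ι) (W : ι → ℝ) (x : ι → ℝ) (j : ι) :
    ∃ a b : ℝ, ∀ t : ℝ, ∑ i ∈ R, Function.update x j t i * W i = a + b * t := by
  by_cases hj : j ∈ R
  · refine ⟨∑ i ∈ R.erase j, x i * W i, W j, ?_⟩
    intro t
    rw [← Finset.add_sum_erase R _ hj, add_comm, mul_comm (W j)]
    congr 1
    · apply Finset.sum_congr rfl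
      intro i hi
      rw [Function.update_of_ne (Finset.ne_of_mem_erase hi)]
    · simp
  · refine ⟨∑ i ∈ R, x i * W i, 0, ?_⟩
    intro t
    rw [zero_mul, add_zero]
    apply Finset.sum_congr rfl
    intro i hi
    rw [Function.update_of_ne (by rintro rfl; exact hj hi)]

/-- Selection of labels. -/
theorem exists_select {ι κ : Type*} [DecidableEq ι] (R : Finset ι) (S : Finset κ) (c : κ → ℝ)
    (hc : ∀ v ∈ S, 0 ≤ c v) (b : κ → ι → ℝ) (p : ι → ℝ) (root : κ)
    (hp : ∀ i, 0 < p i ∧ p i ≤ 1) (C A : ℝ) (hC : 0 < C) (hA : 0 ≤ A)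
    (h1 : 1 ≤ ∑ i ∈ R, b root i)
    (h2 : ∑ v ∈ S, c v * ((∑ i ∈ R, b v i) ^ 2 + ∑ i ∈ R, b v i ^ 2 / p i) ≤ C)
    (h3 : A * ∑ i ∈ R, p i ≤ 2) :
    ∃ T ⊆ R, 1 / 2 ≤ ∑ i ∈ T, b root i / p i ∧
      ∑ v ∈ S, c v * (∑ i ∈ T, b v i / p i) ^ 2 ≤ 4 * C * ∑ i ∈ T, b root i / p i ∧
      A * T.card ≤ 8 * ∑ i ∈ T, b root i / p i := by
  classical
  let W : κ → ι → ℝ := fun v i => b v i / p i
  let Φ : (ι → ℝ) → ℝ := fun x => ∑ i ∈ R, x i * W root i - 1 / (4 * C) * quad R S c W x -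
    A / 8 * ∑ i ∈ R, x i * 1
  have hΦ : ∀ (x : ι → ℝ) (i : ι), ∃ a b : ℝ, ∀ t : ℝ,
      Φ (Function.update x i t) = a + b * t := by
    intro x i
    obtain ⟨a1, b1, e1⟩ := lin_affine R (W root) x i
    obtain ⟨a2, b2, e2⟩ := quad_affine R S c W x i
    obtain ⟨a3, b3, e3⟩ := lin_affine R (fun _ => 1) x i
    refine ⟨a1 - 1 / (4 * C) * a2 - A / 8 * a3, b1 - 1 / (4 * C) * b2 - A / 8 * b3, ?_⟩
    intro t
    simp only [Φ]
    rw [e1, e2, e3]
    ring
  obtain ⟨x, hx1, -, -, hx4⟩ := exists_round Φ hΦ R p (fun i => ⟨(hp i).1.le, (hp i).2⟩)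
  have hpW : ∀ v i, p i * W v i = b v i := fun v i => by
    simp only [W]; field_simp [(hp i).1.ne']
  have hΦp : 1 / 2 ≤ Φ p := by
    simp only [Φ]
    have e1 : ∑ i ∈ R, p i * W root i = ∑ i ∈ R, b root i :=
      Finset.sum_congr rfl fun i _ => hpW root i
    have e2 : quad R S c W p ≤ C := by
      refine le_trans ?_ h2
      unfold quad
      apply Finset.sum_le_sum
      intro v hv
      apply mul_le_mul_of_nonneg_left _ (hc v hv)
      simp_rw [hpW]
      gcongr with i _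
      have hpi := (hp i).1
      simp only [W]
      rw [div_pow, ← mul_div_assoc, div_le_div_iff₀ (by positivity) hpi]
      have := sq_nonneg (b v i)
      have h6 := pow_pos hpi 2
      nlinarith [mul_nonneg this h6.le]
    have e3 : ∑ i ∈ R, p i * 1 = ∑ i ∈ R, p i := by simp
    rw [e1, e3]
    have e4 : 1 / (4 * C) * quad R S c W p ≤ 1 / 4 := by
      calc 1 / (4 * C) * quad R S c W p ≤ 1 / (4 * C) * C := by gcongr
        _ = 1 / 4 := by field_simp
    have e5 : A / 8 * ∑ i ∈ R, p i ≤ 1 / 4 := by linarith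
    linarith
  let T := R.filter (fun i => x i = 1)
  have hsum : ∀ g : ι → ℝ, ∑ i ∈ R, x i * g i = ∑ i ∈ T, g i := by
    intro g
    rw [Finset.sum_filter]
    apply Finset.sum_congr rfl
    intro i hi
    rcases hx1 i hi with h | h
    · simp [h]
    · simp [h]
  have hΦx : Φ x = ∑ i ∈ T, W root i - 1 / (4 * C) * ∑ v ∈ S, c v * (∑ i ∈ T, W v i) ^ 2 -
      A / 8 * T.card := by
    simp only [Φ]
    rw [hsum, hsum]
    have e1 : quad R S c W x = ∑ v ∈ S, c v * (∑ i ∈ T, W v i) ^ 2 := by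
      unfold quad
      apply Finset.sum_congr rfl
      intro v _
      rw [hsum]
      have : ∑ i ∈ R, (x i - x i ^ 2) * W v i ^ 2 = 0 := by
        apply Finset.sum_eq_zero
        intro i hi
        rcases hx1 i hi with h | h <;> simp [h]
      rw [this, add_zero]
    rw [e1]
    simp
  have hfin : 1 / 2 ≤ ∑ i ∈ T, W root i - 1 / (4 * C) * ∑ v ∈ S, c v * (∑ i ∈ T, W v i) ^ 2 -
      A / 8 * T.card := by
    rw [← hΦx]; exact hΦp.trans hx4
  have hE : 0 ≤ ∑ v ∈ S, c v * (∑ i ∈ T, W v i) ^ 2 :=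
    Finset.sum_nonneg fun v hv => mul_nonneg (hc v hv) (sq_nonneg _)
  have hE' : 0 ≤ 1 / (4 * C) * ∑ v ∈ S, c v * (∑ i ∈ T, W v i) ^ 2 := by positivity
  have hAT : 0 ≤ A / 8 * (T.card : ℝ) := by positivity
  refine ⟨T, Finset.filter_subset _ _, ?_, ?_, ?_⟩
  · show 1 / 2 ≤ ∑ i ∈ T, W root i
    linarith
  · show ∑ v ∈ S, c v * (∑ i ∈ T, W v i) ^ 2 ≤ 4 * C * ∑ i ∈ T, W root i
    have h5 : 1 / (4 * C) * ∑ v ∈ S, c v * (∑ i ∈ T, W v i) ^ 2 ≤ ∑ i ∈ T, W root i := by
      linarith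
    calc ∑ v ∈ S, c v * (∑ i ∈ T, W v i) ^ 2
        = 4 * C * (1 / (4 * C) * ∑ v ∈ S, c v * (∑ i ∈ T, W v i) ^ 2) := by field_simp
      _ ≤ 4 * C * ∑ i ∈ T, W root i := by gcongr
  · show A * (T.card : ℝ) ≤ 8 * ∑ i ∈ T, W root i
    linarith

end Pool.Agent.Lib.MP_d9d12d_lc
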