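import Pool.Agent.Lib.MP_d9d12d_lc.Level
import Pool.Agent.Lib.MP_d9d12d_lc.Select

/-!
# The key combinatorial lemma
-/

namespace Pool.Agent.Lib.MP_d9d12d_lc

open Finset

/-- The mass of the extensions of `v` with label `ρ`. -/
noncomputable def lab (F : Finset (List Bool)) (B : List Bool → ℝ) (g : List Bool → List Bool)
    (v ρ : List Bool) : ℝ :=
  mass F (fun x => if g x = ρ then B x else 0) v

theorem lab_nonneg {F : Finset (List Bool)} {B : List Bool → ℝ} {g : List Bool → List Bool}
    (h : ∀ x, 0 ≤ B x) (v ρ : List Bool) : 0 ≤ lab F B g v ρ := by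
  apply mass_nonneg
  intro x
  split
  · exact h x
  · exact le_rfl

theorem sum_lab {F : Finset (List Bool)} {B : List Bool → ℝ} {g : List Bool → List Bool}
    {R : Finset (List Bool)} (hR : ∀ x ∈ F, g x ∈ R) (v : List Bool) :
    ∑ ρ ∈ R, lab F B g v ρ = mass F B v := by
  classical
  unfold lab mass
  rw [Finset.sum_comm]
  apply Finset.sum_congr rfl
  intro x hx
  by_cases h : v <:+ x
  · simp only [h, if_true]
    rw [Finset.sum_ite_eq R (g x)]
    simp [hR x hx]
  · simp [h]

theorem lab_le_mass {F : Finset (List Bool)} {B : List Bool → ℝ} {g : List Bool → List Bool}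
    (h : ∀ x, 0 ≤ B x) (v ρ : List Bool) : lab F B g v ρ ≤ mass F B v := by
  classical
  unfold lab mass
  apply Finset.sum_le_sum
  intro x _
  split
  · show (if g x = ρ then B x else 0) ≤ B x
    split
    · exact le_rfl
    · exact h x
  · exact le_rfl

theorem sum_lab_lev {F : Finset (List Bool)} {B : List Bool → ℝ} {g : List Bool → List Bool}
    (h : ∀ x, 0 ≤ B x) (σ ρ : List Bool) (j : ℕ) :
    ∑ v ∈ lev σ j, lab F B g v ρ ≤ lab F B g σ ρ := by
  classical
  unfold lab mass
  rw [Finset.sum_comm]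
  apply Finset.sum_le_sum
  intro x _
  have hB : 0 ≤ (if g x = ρ then B x else 0) := by
    split
    · exact h x
    · exact le_rfl
  by_cases hx : ∃ v ∈ lev σ j, v <:+ x
  · obtain ⟨v, hv, hvx⟩ := hx
    rw [Finset.sum_eq_single v]
    · rw [if_pos hvx, if_pos ((mem_lev.1 hv).1.trans hvx)]
    · intro v' hv' hne
      rw [if_neg]
      intro h'
      exact hne (lev_unique hv' hv h' hvx)
    · intro h'; exact absurd hv h'
  · push Not at hx
    rw [Finset.sum_eq_zero]
    · split
      · exact hB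
      · exact le_rfl
    · intro v hv
      rw [if_neg (hx v hv)]

/-- Constants. -/
noncomputable def cstC (q : ℝ) : ℝ :=
  2 * q / (1 - q) + 1 / (1 - 1 / (2 * q)) + 1 / (1 - 1 / (2 * q))

theorem one_le_cstC {q : ℝ} (hq : 1 / 2 < q) (hq1 : q < 1) : 1 ≤ cstC q := by
  have hq0 : 0 < q := by linarith
  have hr1 : 1 / (2 * q) < 1 := by rw [div_lt_one (by positivity)]; linarith
  have hr0 : 0 < 1 / (2 * q) := by positivity
  have h1 : 1 ≤ 1 / (1 - 1 / (2 * q)) := by
    rw [le_div_iff₀ (by linarith)]; linarith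
  have h2 : 0 ≤ 2 * q / (1 - q) := div_nonneg (by positivity) (by linarith)
  unfold cstC
  linarith

/-- The abstract selection, in the tree setting. -/
theorem exists_labels {q : ℝ} (hq : 1 / 2 < q) (hq1 : q < 1) {σ : List Bool} {m : ℕ}
    {F : Finset (List Bool)} {B : List Bool → ℝ} {g : List Bool → List Bool}
    (hB : ∀ x, 0 ≤ B x) (hg : ∀ x ∈ F, (g x).length = m)
    (hmass : ∀ j ≤ m, ∀ v ∈ lev σ j, mass F B v = (1 / 2) ^ j) :
    ∃ T ⊆ lev [] m, ∃ p : List Bool → ℝ, (∀ ρ, (1 / (2 * q)) ^ m ≤ p ρ ∧ p ρ ≤ 1) ∧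
      1 / 2 ≤ ∑ ρ ∈ T, lab F B g σ ρ / p ρ ∧
      ∑ j ∈ range (m + 1), ∑ v ∈ lev σ j, (1 / q) ^ j * (∑ ρ ∈ T, lab F B g v ρ / p ρ) ^ 2 ≤
        4 * cstC q * ∑ ρ ∈ T, lab F B g σ ρ / p ρ ∧
      q ^ m * T.card ≤ 8 * ∑ ρ ∈ T, lab F B g σ ρ / p ρ := by
  classical
  have hq0 : 0 < q := by linarith
  have hr1 : 1 / (2 * q) < 1 := by rw [div_lt_one (by positivity)]; linarith
  have hr0 : 0 < 1 / (2 * q) := by positivity
  set r := 1 / (2 * q) with hr
  have hR : ∀ x ∈ F, g x ∈ lev [] m := by
    intro x hx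
    rw [mem_lev]
    exact ⟨List.nil_suffix, by simp [hg x hx]⟩
  have htot : ∑ ρ ∈ lev [] m, lab F B g σ ρ = 1 := by
    rw [sum_lab hR, hmass 0 (Nat.zero_le _) σ (by simp [lev])]
    simp
  have hlab1 : ∀ ρ, lab F B g σ ρ ≤ 1 := by
    intro ρ
    have := lab_le_mass (F := F) (g := g) hB σ ρ
    rw [hmass 0 (Nat.zero_le _) σ (by simp [lev])] at this
    simpa using this
  have hk : ∀ ρ, ∃ k ≤ m, (1 / 2 : ℝ) ^ k ≤ max (lab F B g σ ρ) ((1 / 2) ^ m) ∧
      max (lab F B g σ ρ) ((1 / 2) ^ m) ≤ 2 * (1 / 2) ^ k := by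
    intro ρ
    apply exists_dyadic
    · exact le_max_right _ _
    · exact max_le (hlab1 ρ) (pow_le_one₀ (by norm_num) (by norm_num))
  choose k hkm hk1 hk2 using hk
  have hp : ∀ ρ, r ^ m ≤ r ^ k ρ ∧ r ^ k ρ ≤ 1 := fun ρ =>
    ⟨pow_le_pow_of_le_one hr0.le hr1.le (hkm ρ), pow_le_one₀ hr0.le hr1.le⟩
  let S : Finset (ℕ × List Bool) := (range (m + 1)).biUnion
    (fun j => (lev σ j).image (fun v => (j, v)))
  have hS : ∀ f : ℕ × List Bool → ℝ, ∑ v ∈ S, f v =
      ∑ j ∈ range (m + 1), ∑ v ∈ lev σ j, f (j, v) := by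
    intro f
    rw [Finset.sum_biUnion]
    · apply Finset.sum_congr rfl
      intro j _
      rw [Finset.sum_image]
      intro a _ b _ h
      exact (Prod.mk.inj h).2
    · intro i _ j _ hij
      rw [Function.onFun, Finset.disjoint_left]
      intro x hx hy
      simp only [Finset.mem_image] at hx hy
      obtain ⟨a, -, rfl⟩ := hx
      obtain ⟨b, -, h⟩ := hy
      exact hij (Prod.mk.inj h).1.symm
  obtain ⟨T, hT, h1, h2, h3⟩ := exists_select (lev [] m) S (fun v => (1 / q) ^ v.1)
    (fun v _ => by positivity) (fun v ρ => lab F B g v.2 ρ) (fun ρ => r ^ k ρ) (0, σ)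
    (fun ρ => ⟨pow_pos hr0 _, (hp ρ).2⟩) (cstC q) (q ^ m)
    (by linarith [one_le_cstC hq hq1]) (by positivity)
    (by rw [htot]) (by
      rw [hS]
      simp only
      have hsplit : ∀ j ∈ range (m + 1), ∑ v ∈ lev σ j, (1 / q) ^ j *
          ((∑ i ∈ lev [] m, lab F B g v i) ^ 2 + ∑ i ∈ lev [] m, lab F B g v i ^ 2 / r ^ k i) ≤
          r ^ j + ∑ i ∈ lev [] m, lab F B g σ i / r ^ k i *
            ((1 / q) ^ j * min ((1 / 2 : ℝ) ^ j) (2 * (1 / 2) ^ k i)) := by
        intro j hj
        rw [Finset.mem_range] at hj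
        simp_rw [mul_add]
        rw [Finset.sum_add_distrib]
        apply add_le_add
        · have : ∀ v ∈ lev σ j, (1 / q) ^ j * (∑ i ∈ lev [] m, lab F B g v i) ^ 2 =
              (1 / q) ^ j * ((1 / 2) ^ j) ^ 2 := by
            intro v hv
            rw [sum_lab hR, hmass j (by omega) v hv]
          rw [Finset.sum_congr rfl this, Finset.sum_const, card_lev, nsmul_eq_mul]
          apply le_of_eq
          push_cast
          rw [hr]
          have e1 : (1 / (2 * q)) ^ j = (1 / q) ^ j * (1 / 2) ^ j := by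
            rw [← mul_pow]; congr 1; field_simp
          have e2 : (2 : ℝ) ^ j * (1 / 2) ^ j = 1 := by
            rw [← mul_pow]; norm_num
          rw [e1]
          calc (2 : ℝ) ^ j * ((1 / q) ^ j * ((1 / 2) ^ j) ^ 2)
              = (1 / q) ^ j * (1 / 2) ^ j * ((2 : ℝ) ^ j * (1 / 2) ^ j) := by ring
            _ = _ := by rw [e2, mul_one]
        · simp_rw [Finset.mul_sum]
          rw [Finset.sum_comm]
          apply Finset.sum_le_sum
          intro ρ _
          have hpρ : 0 < r ^ k ρ := pow_pos hr0 _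
          set mn := min ((1 / 2 : ℝ) ^ j) (2 * (1 / 2) ^ k ρ) with hmn
          have hmn0 : 0 ≤ mn := le_min (by positivity) (by positivity)
          have hb : ∀ v ∈ lev σ j, lab F B g v ρ ≤ mn := by
            intro v hv
            apply le_min
            · rw [← hmass j (by omega) v hv]
              exact lab_le_mass hB v ρ
            · refine le_trans ?_ (hk2 ρ)
              refine le_trans ?_ (le_max_left _ _)
              refine le_trans ?_ (sum_lab_lev hB σ ρ j)
              exact Finset.single_le_sum (f := fun v => lab F B g v ρ)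
                (fun v _ => lab_nonneg hB v ρ) hv
          calc ∑ v ∈ lev σ j, (1 / q) ^ j * (lab F B g v ρ ^ 2 / r ^ k ρ)
              ≤ ∑ v ∈ lev σ j, (1 / q) ^ j * (mn * lab F B g v ρ / r ^ k ρ) := by
                apply Finset.sum_le_sum
                intro v hv
                have h0 := lab_nonneg (F := F) (g := g) hB v ρ
                have h1 := hb v hv
                gcongr
                rw [sq]
                exact mul_le_mul_of_nonneg_right h1 h0
            _ = (1 / q) ^ j * mn / r ^ k ρ * ∑ v ∈ lev σ j, lab F B g v ρ := by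
                rw [Finset.mul_sum]
                apply Finset.sum_congr rfl
                intro v _
                ring
            _ ≤ (1 / q) ^ j * mn / r ^ k ρ * lab F B g σ ρ := by
                apply mul_le_mul_of_nonneg_left (sum_lab_lev hB σ ρ j)
                positivity
            _ = lab F B g σ ρ / r ^ k ρ * ((1 / q) ^ j * mn) := by ring
      refine (Finset.sum_le_sum hsplit).trans ?_
      rw [Finset.sum_add_distrib, Finset.sum_comm]
      have e1 := energy_numeric2 hq m
      have e2 : ∑ i ∈ lev [] m, ∑ j ∈ range (m + 1), lab F B g σ i / r ^ k i *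
          ((1 / q) ^ j * min ((1 / 2 : ℝ) ^ j) (2 * (1 / 2) ^ k i)) ≤
          2 * q / (1 - q) + 1 / (1 - 1 / (2 * q)) := by
        calc _ ≤ ∑ i ∈ lev [] m, lab F B g σ i *
              (2 * q / (1 - q) + 1 / (1 - 1 / (2 * q))) := by
              apply Finset.sum_le_sum
              intro ρ _
              rw [← Finset.mul_sum]
              have h4 := energy_numeric hq hq1 (hkm ρ)
              have h5 := lab_nonneg (F := F) (g := g) hB σ ρ
              have hpρ : 0 < r ^ k ρ := pow_pos hr0 _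
              calc lab F B g σ ρ / r ^ k ρ * _ ≤ lab F B g σ ρ / r ^ k ρ *
                    ((2 * q / (1 - q) + 1 / (1 - 1 / (2 * q))) * (1 / (2 * q)) ^ k ρ) := by
                    apply mul_le_mul_of_nonneg_left h4 (by positivity)
                _ = _ := by
                    rw [← hr]
                    field_simp
          _ = _ := by rw [← Finset.sum_mul, htot, one_mul]
      unfold cstC
      rw [← hr] at e1 e2 ⊢
      linarith)
    (by
      rw [Finset.mul_sum]
      calc ∑ ρ ∈ lev [] m, q ^ m * r ^ k ρ ≤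
            ∑ ρ ∈ lev [] m, (lab F B g σ ρ + (1 / 2) ^ m) := by
            apply Finset.sum_le_sum
            intro ρ _
            have e1 : r ^ k ρ = (1 / 2) ^ k ρ * (1 / q) ^ k ρ := by
              rw [← mul_pow, hr]; congr 1; field_simp
            have e2 : q ^ m * (1 / q) ^ k ρ ≤ 1 := by
              have : q ^ m ≤ q ^ k ρ := pow_le_pow_of_le_one hq0.le hq1.le (hkm ρ)
              calc q ^ m * (1 / q) ^ k ρ ≤ q ^ k ρ * (1 / q) ^ k ρ := by gcongr
                _ = 1 := by rw [← mul_pow]; rw [mul_one_div_cancel hq0.ne', one_pow]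
            have e3 : (0 : ℝ) ≤ (1 / 2) ^ k ρ := by positivity
            have e4 := hk1 ρ
            have e5 : max (lab F B g σ ρ) ((1 / 2) ^ m) ≤ lab F B g σ ρ + (1 / 2) ^ m := by
              apply max_le
              · have : (0 : ℝ) ≤ (1 / 2) ^ m := by positivity
                linarith
              · have := lab_nonneg (F := F) (g := g) hB σ ρ
                linarith
            rw [e1]
            nlinarith
        _ = 2 := by
            rw [Finset.sum_add_distrib, htot, Finset.sum_const, card_lev, nsmul_eq_mul]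
            push_cast
            rw [← mul_pow]
            norm_num)
  refine ⟨T, hT, fun ρ => r ^ k ρ, hp, h1, ?_, h3⟩
  rw [hS] at h2
  exact h2

theorem sum_lab_div {F : Finset (List Bool)} {B : List Bool → ℝ} {g : List Bool → List Bool}
    (T : Finset (List Bool)) (p : List Bool → ℝ) [DecidableEq (List Bool)] (v : List Bool) :
    ∑ ρ ∈ T, lab F B g v ρ / p ρ = mass F (fun x => if g x ∈ T then B x / p (g x) else 0) v := by
  classical
  unfold lab mass
  simp_rw [Finset.sum_div]
  rw [Finset.sum_comm]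
  apply Finset.sum_congr rfl
  intro x _
  by_cases h : v <:+ x
  · simp only [h, if_true, ite_div, zero_div]
    rw [Finset.sum_ite_eq T (g x)]
  · simp [h]

/-- The key lemma: a small set of labels `T` of length `m` whose nodes are not blocked by any
supergale of small initial value. -/
theorem key_lemma {q : ℝ} (hq : 1 / 2 < q) (hq1 : q < 1) {σ : List Bool} {m : ℕ}
    {D : Set (List Bool)} {g : List Bool → List Bool} (hg : ∀ τ ∈ D, (g τ).length = m)
    (hfull : ∀ σ₁ ∈ lev σ m, Full q D σ₁) :
    ∃ T : Finset (List Bool), (∀ ρ ∈ T, ρ.length = m) ∧ q ^ m * T.card ≤ 32 * cstC q ∧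
      ∀ Ψ, GoodAt σ Ψ → Ψ σ < 1 / (64 * cstC q) * q ^ σ.length →
        ∃ τ ∈ D, g τ ∈ T ∧ σ <:+ τ ∧ ∀ τ', σ <:+ τ' → τ' <:+ τ → Ψ τ' < 3 / 4 * q ^ τ'.length := by
  classical
  have hq0 : 0 < q := by linarith
  have hC := one_le_cstC hq hq1
  have hfr : ∀ σ₁, ∃ F μ, σ₁ ∈ lev σ m → Frost q D σ₁ (q ^ σ₁.length / 2) F μ := by
    intro σ₁
    by_cases h : σ₁ ∈ lev σ m
    · obtain ⟨F, μ, H⟩ := exists_frost_of_full hq0 (hfull σ₁ h)
      exact ⟨F, μ, fun _ => H⟩
    · exact ⟨∅, fun _ => 0, fun h' => absurd h' h⟩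
  choose F μ H using hfr
  let FF := (lev σ m).biUnion F
  set lam : ℝ := (1 / 2) ^ m * 2 / q ^ (σ.length + m) with hlam
  have hlam0 : 0 < lam := by positivity
  let B : List Bool → ℝ := fun x => lam * ∑ σ₁ ∈ lev σ m, μ σ₁ x
  have hB : ∀ x, 0 ≤ B x := fun x => mul_nonneg hlam0.le
    (Finset.sum_nonneg fun σ₁ h => (H σ₁ h).nonneg x)
  have hFF : ∀ x ∈ FF, x ∈ D ∧ σ <:+ x := by
    intro x hx
    obtain ⟨σ₁, h1, h2⟩ := Finset.mem_biUnion.1 hx
    exact ⟨((H σ₁ h1).mem x h2).1, (mem_lev.1 h1).1.trans ((H σ₁ h1).mem x h2).2⟩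
  have hmassB : ∀ v, mass FF B v = lam * ∑ σ₁ ∈ lev σ m, mass (F σ₁) (μ σ₁) v := by
    intro v
    have e1 : ∀ σ₁ ∈ lev σ m, mass (F σ₁) (μ σ₁) v = mass FF (μ σ₁) v := by
      intro σ₁ h1
      unfold mass
      apply Finset.sum_subset (Finset.subset_biUnion_of_mem F h1)
      intro x _ hx
      rw [(H σ₁ h1).zero x hx]
      simp
    rw [Finset.sum_congr rfl e1]
    unfold mass
    rw [Finset.sum_comm, Finset.mul_sum]
    apply Finset.sum_congr rfl
    intro x _
    split <;> simp [B]
  have hmass : ∀ j ≤ m, ∀ v ∈ lev σ j, mass FF B v = (1 / 2) ^ j := by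
    intro j hj v hv
    have hv' := mem_lev.1 hv
    have e1 : ∀ σ₁ ∈ lev σ m, mass (F σ₁) (μ σ₁) v =
        if v <:+ σ₁ then q ^ (σ.length + m) / 2 else 0 := by
      intro σ₁ h1
      have h1' := mem_lev.1 h1
      by_cases hc : v <:+ σ₁
      · rw [if_pos hc, mass_eq_total, (H σ₁ h1).total, h1'.2]
        intro x hx
        exact hc.trans ((H σ₁ h1).mem x hx).2
      · rw [if_neg hc, mass_eq_zero]
        intro x hx hvx
        exact hc (List.suffix_of_suffix_length_le hvx ((H σ₁ h1).mem x hx).2 (by omega))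
    have e2 : (lev σ m).filter (fun σ₁ => v <:+ σ₁) = lev v (m - j) := by
      ext x
      rw [Finset.mem_filter, mem_lev, mem_lev]
      constructor
      · rintro ⟨⟨h1, h2⟩, h3⟩
        exact ⟨h3, by omega⟩
      · rintro ⟨h1, h2⟩
        exact ⟨⟨hv'.1.trans h1, by omega⟩, h1⟩
    rw [hmassB, Finset.sum_congr rfl e1, ← Finset.sum_filter, e2, Finset.sum_const, card_lev,
      nsmul_eq_mul, hlam]
    push_cast
    have h2 : (2 : ℝ) ^ m = 2 ^ j * 2 ^ (m - j) := by rw [← pow_add]; congr 1; omega
    rw [one_div, inv_pow, inv_pow, h2]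
    field_simp
  have hlong : ∀ v, σ <:+ v → σ.length + m ≤ v.length → mass FF B v ≤ lam * q ^ v.length := by
    intro v hv hl
    obtain ⟨σ₁, h1, h2⟩ : ∃ σ₁ ∈ lev σ m, σ₁ <:+ v := by
      refine ⟨v.drop (v.length - (σ.length + m)), ?_, List.drop_suffix _ _⟩
      have hlen : (v.drop (v.length - (σ.length + m))).length = σ.length + m := by
        rw [List.length_drop]; omega
      rw [mem_lev]
      exact ⟨List.suffix_of_suffix_length_le hv (List.drop_suffix _ _) (by omega), hlen⟩
    rw [hmassB]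
    apply mul_le_mul_of_nonneg_left _ hlam0.le
    rw [Finset.sum_eq_single σ₁]
    · exact (H σ₁ h1).bound v h2
    · intro σ₂ h3 hne
      apply mass_eq_zero
      intro x hx hvx
      exact hne (lev_unique h3 h1 ((H σ₂ h3).mem x hx).2 (h2.trans hvx))
    · intro h; exact absurd h1 h
  obtain ⟨T, hT, p, hp, ht1, ht2, ht3⟩ := exists_labels hq hq1 hB
    (fun x hx => hg x (hFF x hx).1) hmass
  let β : List Bool → ℝ := fun x => if g x ∈ T then B x / p (g x) else 0
  have hr0 : 0 < (1 / (2 * q)) ^ m := by positivity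
  have hp0 : ∀ ρ, 0 < p ρ := fun ρ => lt_of_lt_of_le hr0 (hp ρ).1
  have hβ0 : ∀ x, 0 ≤ β x := by
    intro x
    simp only [β]
    split
    · exact div_nonneg (hB x) (hp0 _).le
    · exact le_rfl
  have hν : ∀ v, ∑ ρ ∈ T, lab FF B g v ρ / p ρ = mass FF β v := fun v => sum_lab_div T p v
  simp_rw [hν] at ht1 ht2 ht3
  have hsq : (mass FF β σ) ^ 2 ≤ 4 * cstC q * mass FF β σ := by
    refine le_trans ?_ ht2
    have h0 : ∑ v ∈ lev σ 0, (1 / q) ^ 0 * (mass FF β v) ^ 2 = (mass FF β σ) ^ 2 := by
      simp [lev]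
    rw [← h0]
    exact Finset.single_le_sum (f := fun j => ∑ v ∈ lev σ j, (1 / q) ^ j * (mass FF β v) ^ 2)
      (fun j _ => Finset.sum_nonneg fun v _ => by positivity) (by simp)
  have hνle : mass FF β σ ≤ 4 * cstC q := by
    have h1 : 0 < mass FF β σ := by linarith
    rw [sq] at hsq
    exact le_of_mul_le_mul_right hsq h1
  refine ⟨T, fun ρ hρ => by simpa using (mem_lev.1 (hT hρ)).2, by linarith, ?_⟩
  intro Ψ hΨ hΨσ
  by_contra hcon
  push Not at hcon
  -- first hitting nodes
  let hit : List Bool → Prop := fun v => σ <:+ v ∧ 3 / 4 * q ^ v.length ≤ Ψ v ∧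
    ∀ v', σ <:+ v' → v' <:+ v → v' ≠ v → Ψ v' < 3 / 4 * q ^ v'.length
  have hhit : ∀ x ∈ FF, g x ∈ T → ∃ v, hit v ∧ v <:+ x := by
    intro x hx hgx
    obtain ⟨τ', h1, h2, h3⟩ := hcon x (hFF x hx).1 hgx (hFF x hx).2
    have : ∀ n (τ' : List Bool), τ'.length = n → σ <:+ τ' → τ' <:+ x →
        3 / 4 * q ^ τ'.length ≤ Ψ τ' → ∃ v, hit v ∧ v <:+ x := by
      intro n
      induction n using Nat.strong_induction_on with
      | _ n ih =>
        intro τ' hn h1 h2 h3
        by_cases hc : ∀ v', σ <:+ v' → v' <:+ τ' → v' ≠ τ' → Ψ v' < 3 / 4 * q ^ v'.length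
        · exact ⟨τ', ⟨h1, h3, hc⟩, h2⟩
        · push Not at hc
          obtain ⟨v', e1, e2, e3, e4⟩ := hc
          have hl : v'.length < τ'.length :=
            lt_of_le_of_ne e2.length_le (fun hl => e3 (e2.eq_of_length hl))
          exact ih v'.length (by omega) v' rfl e1 (e2.trans h2) e4
    exact this _ τ' rfl h1 h2 h3
  have hhit' : ∀ x, ∃ v, x ∈ FF → g x ∈ T → hit v ∧ v <:+ x := by
    intro x
    by_cases h : x ∈ FF ∧ g x ∈ T
    · obtain ⟨v, hv⟩ := hhit x h.1 h.2
      exact ⟨v, fun _ _ => hv⟩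
    · exact ⟨[], fun h1 h2 => absurd ⟨h1, h2⟩ h⟩
  choose w hw using hhit'
  let V := (FF.filter (fun x => g x ∈ T)).image w
  have hV : ∀ v ∈ V, hit v := by
    intro v hv
    obtain ⟨x, hx, rfl⟩ := Finset.mem_image.1 hv
    rw [Finset.mem_filter] at hx
    exact (hw x hx.1 hx.2).1
  have hanti : ∀ v ∈ V, ∀ v' ∈ V, v <:+ v' → v = v' := by
    intro v hv v' hv' h
    by_contra hne
    have h1 := (hV v' hv').2.2 v (hV v hv).1 h hne
    have h2 := (hV v hv).2.1
    linarith
  have hcost : ∑ v ∈ V, q ^ v.length ≤ 4 / 3 * Ψ σ := by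
    have h1 := antichain_sum hΨ V (fun v hv => (hV v hv).1) hanti
    have h2 : ∑ v ∈ V, 3 / 4 * q ^ v.length ≤ ∑ v ∈ V, Ψ v :=
      Finset.sum_le_sum fun v hv => (hV v hv).2.1
    rw [← Finset.mul_sum] at h2
    linarith
  have hqσ : 0 < q ^ σ.length := by positivity
  set Dw : ℝ := ∑ v ∈ V, q ^ v.length / q ^ σ.length with hDw
  have hDw1 : Dw ≤ 1 / (48 * cstC q) := by
    rw [hDw, ← Finset.sum_div, div_le_iff₀ hqσ]
    refine hcost.trans ?_
    have : 4 / 3 * Ψ σ ≤ 4 / 3 * (1 / (64 * cstC q) * q ^ σ.length) := by linarith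
    refine this.trans (le_of_eq ?_)
    field_simp
    norm_num
  have hcover : mass FF β σ ≤ ∑ v ∈ V, mass FF β v := by
    unfold mass
    rw [Finset.sum_comm]
    apply Finset.sum_le_sum
    intro x hx
    rw [if_pos (hFF x hx).2]
    by_cases hgx : g x ∈ T
    · have h1 := hw x hx hgx
      have h2 : w x ∈ V := Finset.mem_image.2 ⟨x, Finset.mem_filter.2 ⟨hx, hgx⟩, rfl⟩
      calc β x = if w x <:+ x then β x else 0 := by rw [if_pos h1.2]
        _ ≤ _ := Finset.single_le_sum (f := fun v => if v <:+ x then β x else 0)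
          (fun v _ => by
            show 0 ≤ if v <:+ x then β x else 0
            split
            · exact hβ0 x
            · exact le_rfl) h2
    · have : β x = 0 := by simp [β, hgx]
      rw [this]
      simp
  have hlong' : ∀ v, σ <:+ v → σ.length + m ≤ v.length →
      mass FF β v ≤ 2 * (q ^ v.length / q ^ σ.length) := by
    intro v hv hl
    have h1 : mass FF β v ≤ ((1 / (2 * q)) ^ m)⁻¹ * mass FF B v := by
      unfold mass
      rw [Finset.mul_sum]
      apply Finset.sum_le_sum
      intro x _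
      split
      · simp only [β]
        split
        · rw [div_eq_inv_mul]
          apply mul_le_mul_of_nonneg_right _ (hB x)
          exact inv_anti₀ hr0 (hp _).1
        · exact mul_nonneg (inv_nonneg.2 hr0.le) (hB x)
      · simp
    refine h1.trans ?_
    have h2 := hlong v hv hl
    calc ((1 / (2 * q)) ^ m)⁻¹ * mass FF B v ≤ ((1 / (2 * q)) ^ m)⁻¹ * (lam * q ^ v.length) := by
          apply mul_le_mul_of_nonneg_left h2 (inv_nonneg.2 hr0.le)
      _ = 2 * (q ^ v.length / q ^ σ.length) := by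
          rw [hlam, one_div, inv_pow, inv_inv, mul_pow, one_div, inv_pow, pow_add]
          field_simp
  let Vs := V.filter (fun v => v.length < σ.length + m)
  let Vl := V.filter (fun v => ¬ v.length < σ.length + m)
  have hsplit : ∑ v ∈ V, mass FF β v = ∑ v ∈ Vs, mass FF β v + ∑ v ∈ Vl, mass FF β v :=
    (Finset.sum_filter_add_sum_filter_not V _ _).symm
  have hDwnn : ∀ v ∈ V, 0 ≤ q ^ v.length / q ^ σ.length := fun v _ => by positivity
  have hVl : ∑ v ∈ Vl, mass FF β v ≤ 2 * Dw := by
    calc ∑ v ∈ Vl, mass FF β v ≤ ∑ v ∈ Vl, 2 * (q ^ v.length / q ^ σ.length) := by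
          apply Finset.sum_le_sum
          intro v hv
          rw [Finset.mem_filter] at hv
          exact hlong' v (hV v hv.1).1 (by omega)
      _ = 2 * ∑ v ∈ Vl, q ^ v.length / q ^ σ.length := by rw [Finset.mul_sum]
      _ ≤ 2 * Dw := by
          apply mul_le_mul_of_nonneg_left _ (by norm_num)
          exact Finset.sum_le_sum_of_subset_of_nonneg (Finset.filter_subset _ _)
            (fun v hv _ => hDwnn v hv)
  have hVs : (∑ v ∈ Vs, mass FF β v) ^ 2 ≤ Dw * (4 * cstC q * mass FF β σ) := by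
    have hcs := Finset.sum_sq_le_sum_mul_sum_of_sq_le_mul Vs
      (r := fun v => mass FF β v) (f := fun v => q ^ v.length / q ^ σ.length)
      (g := fun v => q ^ σ.length / q ^ v.length * mass FF β v ^ 2)
      (fun v _ => by positivity) (fun v _ => by positivity)
      (fun v _ => le_of_eq (by field_simp))
    refine hcs.trans ?_
    apply mul_le_mul
    · exact Finset.sum_le_sum_of_subset_of_nonneg (Finset.filter_subset _ _)
        (fun v hv _ => hDwnn v hv)
    · refine le_trans ?_ ht2
      -- compare with the sum over all levels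
      have e1 : ∑ v ∈ Vs, q ^ σ.length / q ^ v.length * mass FF β v ^ 2 =
          ∑ j ∈ range (m + 1), ∑ v ∈ Vs.filter (fun v => v.length = σ.length + j),
            q ^ σ.length / q ^ v.length * mass FF β v ^ 2 := by
        rw [← Finset.sum_fiberwise_of_maps_to (g := fun v : List Bool => v.length - σ.length)
          (t := range (m + 1))]
        · apply Finset.sum_congr rfl
          intro j _
          apply Finset.sum_congr _ (fun _ _ => rfl)
          ext v
          simp only [Finset.mem_filter]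
          constructor
          · rintro ⟨h1, h2⟩
            have h3 := (hV v (Finset.mem_filter.1 h1).1).1.length_le
            exact ⟨h1, by omega⟩
          · rintro ⟨h1, h2⟩
            exact ⟨h1, by omega⟩
        · intro v hv
          have h1 := (Finset.mem_filter.1 hv).2
          rw [Finset.mem_range]
          omega
      rw [e1]
      apply Finset.sum_le_sum
      intro j _
      calc ∑ v ∈ Vs.filter (fun v => v.length = σ.length + j),
            q ^ σ.length / q ^ v.length * mass FF β v ^ 2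
          = ∑ v ∈ Vs.filter (fun v => v.length = σ.length + j),
            (1 / q) ^ j * mass FF β v ^ 2 := by
            apply Finset.sum_congr rfl
            intro v hv
            rw [(Finset.mem_filter.1 hv).2, pow_add, one_div, inv_pow]
            field_simp
        _ ≤ ∑ v ∈ lev σ j, (1 / q) ^ j * mass FF β v ^ 2 := by
            apply Finset.sum_le_sum_of_subset_of_nonneg
            · intro v hv
              rw [Finset.mem_filter] at hv
              rw [mem_lev]
              exact ⟨(hV v (Finset.mem_filter.1 hv.1).1).1, hv.2⟩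
            · intro v _ _
              positivity
    · exact Finset.sum_nonneg fun v _ => by positivity
    · exact Finset.sum_nonneg fun v hv => by positivity
  -- final contradiction
  set ν := mass FF β σ with hνdef
  have hDw0 : 0 ≤ Dw := Finset.sum_nonneg hDwnn
  have hVs0 : 0 ≤ ∑ v ∈ Vs, mass FF β v := Finset.sum_nonneg fun v _ => mass_nonneg hβ0 v
  have h5 : Dw * (4 * cstC q * ν) ≤ 1 / 12 * ν := by
    have : Dw * (4 * cstC q) ≤ 1 / 12 := by
      calc Dw * (4 * cstC q) ≤ 1 / (48 * cstC q) * (4 * cstC q) := by gcongr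
        _ = 1 / 12 := by field_simp; norm_num
    nlinarith
  have h6 : ∑ v ∈ Vs, mass FF β v < ν / 2 := by
    by_contra hc
    push Not at hc
    have : (ν / 2) ^ 2 ≤ (∑ v ∈ Vs, mass FF β v) ^ 2 := by
      apply pow_le_pow_left₀ (by linarith) hc
    nlinarith
  have h7 : Dw ≤ 1 / 48 := by
    refine hDw1.trans ?_
    apply one_div_le_one_div_of_le (by norm_num)
    linarith
  linarith

end Pool.Agent.Lib.MP_d9d12d_lc
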