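import Pool.Agent.Lib.MP_d9d12d_lc.Frostman

/-!
# Levels of the binary tree
-/

namespace Pool.Agent.Lib.MP_d9d12d_lc

open Finset

/-- The strings extending `σ` by `j` letters. -/
def lev (σ : List Bool) : ℕ → Finset (List Bool)
  | 0 => {σ}
  | j + 1 => (lev σ j).image (fun τ => false :: τ) ∪ (lev σ j).image (fun τ => true :: τ)

theorem mem_lev {σ : List Bool} {j : ℕ} {v : List Bool} :
    v ∈ lev σ j ↔ σ <:+ v ∧ v.length = σ.length + j := by
  induction j generalizing v with
  | zero =>
    simp only [lev, Finset.mem_singleton, add_zero]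
    constructor
    · rintro rfl; exact ⟨List.suffix_refl _, rfl⟩
    · rintro ⟨h1, h2⟩; exact (h1.eq_of_length h2.symm).symm
  | succ j ih =>
    simp only [lev, Finset.mem_union, Finset.mem_image, ih]
    constructor
    · rintro (⟨τ, ⟨h1, h2⟩, rfl⟩ | ⟨τ, ⟨h1, h2⟩, rfl⟩)
      · exact ⟨h1.trans (List.suffix_cons _ _), by simp [h2]; omega⟩
      · exact ⟨h1.trans (List.suffix_cons _ _), by simp [h2]; omega⟩
    · rintro ⟨⟨u, rfl⟩, h2⟩
      cases u with
      | nil => simp at h2
      | cons b u =>
        simp only [List.cons_append, List.length_cons, List.length_append] at h2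
        cases b
        · left; exact ⟨u ++ σ, ⟨⟨u, rfl⟩, by simp; omega⟩, rfl⟩
        · right; exact ⟨u ++ σ, ⟨⟨u, rfl⟩, by simp; omega⟩, rfl⟩

theorem card_lev (σ : List Bool) (j : ℕ) : (lev σ j).card = 2 ^ j := by
  induction j with
  | zero => simp [lev]
  | succ j ih =>
    rw [lev, Finset.card_union_of_disjoint, Finset.card_image_of_injective _ (by
      intro a b h; simpa using h), Finset.card_image_of_injective _ (by
      intro a b h; simpa using h), ih]
    · ring
    · rw [Finset.disjoint_left]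
      intro x hx hy
      simp only [Finset.mem_image] at hx hy
      obtain ⟨a, -, rfl⟩ := hx
      obtain ⟨b, -, h⟩ := hy
      simp at h

theorem lev_unique {σ x v v' : List Bool} {j : ℕ} (hv : v ∈ lev σ j) (hv' : v' ∈ lev σ j)
    (h : v <:+ x) (h' : v' <:+ x) : v = v' := by
  rw [mem_lev] at hv hv'
  exact (List.suffix_of_suffix_length_le h h' (by omega)).eq_of_length (by omega)

/-- `V` antichain: the supergale inequality summed over an antichain. -/
theorem antichain_sum {σ : List Bool} {Ψ : List Bool → ℝ} (hΨ : GoodAt σ Ψ)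
    (V : Finset (List Bool)) (hV : ∀ v ∈ V, σ <:+ v)
    (hanti : ∀ v ∈ V, ∀ v' ∈ V, v <:+ v' → v = v') : ∑ v ∈ V, Ψ v ≤ Ψ σ := by
  classical
  have key : ∀ n τ, σ <:+ τ → (∀ v ∈ V, τ <:+ v → v.length < τ.length + n) →
      mass V Ψ τ ≤ Ψ τ := by
    intro n
    induction n with
    | zero =>
      intro τ hτ h
      rw [mass_eq_zero]
      · exact (hΨ τ hτ).1
      · intro x hx hx2
        have h1 := h x hx hx2
        have h2 := hx2.length_le
        omega
    | succ n ih =>
      intro τ hτ h
      by_cases hτV : τ ∈ V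
      · have : mass V Ψ τ = Ψ τ := by
          unfold mass
          rw [Finset.sum_eq_single τ]
          · simp
          · intro x hx hne
            rw [if_neg]
            intro hx2
            exact hne (hanti τ hτV x hx hx2).symm
          · intro h; exact absurd hτV h
        rw [this]
      · have h1 : mass V Ψ τ = mass V Ψ (false :: τ) + mass V Ψ (true :: τ) := by
          unfold mass
          rw [← Finset.sum_add_distrib]
          apply Finset.sum_congr rfl
          intro x hx
          by_cases hx2 : τ <:+ x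
          · rcases suffix_cases hx2 with rfl | h0 | h0
            · exact absurd hx hτV
            · have : ¬ (true :: τ) <:+ x := fun h1 => not_both h0 h1
              simp [hx2, h0, this]
            · have : ¬ (false :: τ) <:+ x := fun h1 => not_both h1 h0
              simp [hx2, h0, this]
          · have h0 : ∀ b, ¬ (b :: τ) <:+ x := fun b h => hx2 (cons_suffix h)
            simp [hx2, h0]
        rw [h1]
        have h2 := ih (false :: τ) (hτ.trans (List.suffix_cons _ _)) (fun v hv hv2 => by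
          have := h v hv (cons_suffix hv2)
          simp only [List.length_cons]; omega)
        have h3 := ih (true :: τ) (hτ.trans (List.suffix_cons _ _)) (fun v hv hv2 => by
          have := h v hv (cons_suffix hv2)
          simp only [List.length_cons]; omega)
        linarith [(hΨ τ hτ).2]
  have h1 := key ((V.sup List.length) + 1) σ (List.suffix_refl _) (fun v hv _ => by
    have : v.length ≤ V.sup List.length := Finset.le_sup (f := List.length) hv
    omega)
  rwa [mass_eq_total hV] at h1

/-! ### Numerical estimates -/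

theorem exists_dyadic (m : ℕ) : ∀ y : ℝ, (1 / 2 : ℝ) ^ m ≤ y → y ≤ 1 →
    ∃ k ≤ m, (1 / 2 : ℝ) ^ k ≤ y ∧ y ≤ 2 * (1 / 2) ^ k := by
  induction m with
  | zero =>
    intro y h1 h2
    refine ⟨0, le_rfl, h1, ?_⟩
    simp; linarith
  | succ m ih =>
    intro y h1 h2
    rcases le_total ((1 / 2 : ℝ) ^ m) y with h | h
    · obtain ⟨k, hk, h3, h4⟩ := ih y h h2
      exact ⟨k, by omega, h3, h4⟩
    · refine ⟨m + 1, le_rfl, h1, ?_⟩
      rw [pow_succ]; linarith

theorem energy_numeric {q : ℝ} (hq : 1 / 2 < q) (hq1 : q < 1) {k m : ℕ} (hk : k ≤ m) :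
    ∑ j ∈ range (m + 1), (1 / q) ^ j * min ((1 / 2 : ℝ) ^ j) (2 * (1 / 2) ^ k) ≤
      (2 * q / (1 - q) + 1 / (1 - 1 / (2 * q))) * (1 / (2 * q)) ^ k := by
  have hq0 : 0 < q := by linarith
  have hr1 : 1 / (2 * q) < 1 := by rw [div_lt_one (by positivity)]; linarith
  have hr0 : 0 ≤ 1 / (2 * q) := by positivity
  have hsplit := Finset.sum_range_add_sum_Ico
    (fun j => (1 / q) ^ j * min ((1 / 2 : ℝ) ^ j) (2 * (1 / 2) ^ k)) (show k ≤ m + 1 by omega)
  rw [← hsplit, add_mul]
  apply add_le_add
  · have h1 : ∑ j ∈ range k, (1 / q) ^ j * min ((1 / 2 : ℝ) ^ j) (2 * (1 / 2) ^ k) ≤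
        ∑ j ∈ range k, (1 / q) ^ j * (2 * (1 / 2) ^ k) := by
      apply Finset.sum_le_sum
      intro j _
      apply mul_le_mul_of_nonneg_left (min_le_right _ _) (by positivity)
    refine h1.trans ?_
    rw [← Finset.sum_mul]
    have hgt : 1 < 1 / q := by rw [lt_div_iff₀ hq0]; linarith
    rw [geom_sum_eq hgt.ne']
    have h2 : ((1 / q) ^ k - 1) / (1 / q - 1) ≤ (1 / q) ^ k * (q / (1 - q)) := by
      have e : (1 / q - 1) = (1 - q) / q := by field_simp
      rw [e, div_div_eq_mul_div, mul_div_assoc]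
      have : 0 ≤ q / (1 - q) := div_nonneg hq0.le (by linarith)
      nlinarith
    calc ((1 / q) ^ k - 1) / (1 / q - 1) * (2 * (1 / 2) ^ k)
        ≤ (1 / q) ^ k * (q / (1 - q)) * (2 * (1 / 2) ^ k) := by gcongr
      _ = 2 * q / (1 - q) * (1 / (2 * q)) ^ k := by
        have : (1 / (2 * q)) ^ k = (1 / q) ^ k * (1 / 2) ^ k := by
          rw [← mul_pow]; congr 1; field_simp
        rw [this]; ring
  · have h1 : ∑ j ∈ Ico k (m + 1), (1 / q) ^ j * min ((1 / 2 : ℝ) ^ j) (2 * (1 / 2) ^ k) ≤
        ∑ j ∈ Ico k (m + 1), (1 / (2 * q)) ^ j := by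
      apply Finset.sum_le_sum
      intro j _
      have : (1 / (2 * q)) ^ j = (1 / q) ^ j * (1 / 2) ^ j := by
        rw [← mul_pow]; congr 1; field_simp
      rw [this]
      apply mul_le_mul_of_nonneg_left (min_le_left _ _) (by positivity)
    refine h1.trans ((geom_sum_Ico_le_of_lt_one hr0 hr1).trans ?_)
    rw [one_div_mul_eq_div]

theorem energy_numeric2 {q : ℝ} (hq : 1 / 2 < q) (m : ℕ) :
    ∑ j ∈ range (m + 1), (1 / (2 * q)) ^ j ≤ 1 / (1 - 1 / (2 * q)) := by
  have hr1 : 1 / (2 * q) < 1 := by rw [div_lt_one (by linarith)]; linarith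
  have hr0 : 0 ≤ 1 / (2 * q) := div_nonneg zero_le_one (by linarith)
  have := geom_sum_Ico_le_of_lt_one (m := 0) (n := m + 1) hr0 hr1
  simpa using this

end Pool.Agent.Lib.MP_d9d12d_lc
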