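import Pool.Agent.Lib.MP_d9d12d_lc.Dense

/-!
# Null sets are nowhere dense in the supergale topology
-/

namespace Pool.Agent.Lib.MP_d9d12d_lc

open Set Filter Topology PiNat

open Classical in
/-- The supergale of a countable family of strings. -/
noncomputable def famGale (q : ℝ) (V : ℕ → List Bool) (τ : List Bool) : ℝ :=
  ∑' n, if τ <:+ V n then q ^ (V n).length else 0

variable {q : ℝ} {V : ℕ → List Bool}

open Classical in
theorem famGale_summable (hq : 0 < q) (hV : Summable (fun n => q ^ (V n).length))
    (τ : List Bool) : Summable (fun n => if τ <:+ V n then q ^ (V n).length else 0) := by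
  refine Summable.of_nonneg_of_le ?_ ?_ hV
  · intro n
    split
    · positivity
    · exact le_rfl
  · intro n
    split
    · exact le_rfl
    · positivity

theorem famGale_good (hq : 0 < q) (hV : Summable (fun n => q ^ (V n).length)) (σ : List Bool) :
    GoodAt σ (famGale q V) := by
  classical
  intro τ _
  constructor
  · unfold famGale
    apply tsum_nonneg
    intro n
    split
    · positivity
    · exact le_rfl
  · unfold famGale
    have s0 := famGale_summable hq hV (false :: τ)
    have s1 := famGale_summable hq hV (true :: τ)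
    have s2 := famGale_summable hq hV τ
    rw [← s0.tsum_add s1]
    apply (s0.add s1).tsum_le_tsum _ s2
    intro n
    by_cases h0 : (false :: τ) <:+ V n
    · have h1 : ¬ (true :: τ) <:+ V n := fun h => not_both h0 h
      simp [h0, h1, cons_suffix h0]
    · by_cases h1 : (true :: τ) <:+ V n
      · simp [h0, h1, cons_suffix h1]
      · simp only [h0, h1, if_false, add_zero]
        split
        · positivity
        · exact le_rfl

theorem famGale_le (hq : 0 < q) (hV : Summable (fun n => q ^ (V n).length)) (τ : List Bool) :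
    famGale q V τ ≤ ∑' n, q ^ (V n).length := by
  classical
  unfold famGale
  apply (famGale_summable hq hV τ).tsum_le_tsum _ hV
  intro n
  split
  · exact le_rfl
  · positivity

theorem le_famGale (hq : 0 < q) (hV : Summable (fun n => q ^ (V n).length)) (n : ℕ) :
    q ^ (V n).length ≤ famGale q V (V n) := by
  classical
  unfold famGale
  have h := (famGale_summable hq hV (V n)).le_tsum n (fun j _ => by
    split
    · positivity
    · exact le_rfl)
  simpa using h

/-- Sets with arbitrarily cheap covers are contained in Borel sets that are nowhere dense in the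
supergale topology. -/
theorem exists_meagre_hull (q : Set.Ioo (1 / 2 : ℝ) 1) {N : Set (ℕ → Bool)}
    (hN : ∀ ε : ℝ, 0 < ε → ∃ V : ℕ → List Bool, N ⊆ ⋃ n, cyl (V n) ∧
      Summable (fun n => (q : ℝ) ^ (V n).length) ∧ ∑' n, (q : ℝ) ^ (V n).length < ε) :
    ∃ N', N ⊆ N' ∧ @MeasurableSet _ (borel (ℕ → Bool)) N' ∧ N'ᶜ ∈ @residual _ (galeTop q) := by
  have hq : (1 / 2 : ℝ) < q := q.2.1
  have hq1 : (q : ℝ) < 1 := q.2.2
  have hq0 : (0 : ℝ) < q := by linarith
  have hN' : ∀ k : ℕ, ∃ V : ℕ → List Bool, N ⊆ ⋃ n, cyl (V n) ∧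
      Summable (fun n => (q : ℝ) ^ (V n).length) ∧
      ∑' n, (q : ℝ) ^ (V n).length < 1 / ((k : ℝ) + 1) := fun k => hN _ (by positivity)
  choose V hV1 hV2 hV3 using hN'
  refine ⟨⋂ k, ⋃ n, cyl (V k n), subset_iInter hV1, ?_, ?_⟩
  · let _m : MeasurableSpace (ℕ → Bool) := borel (ℕ → Bool)
    have _b : BorelSpace (ℕ → Bool) := ⟨rfl⟩
    exact MeasurableSet.iInter fun k => MeasurableSet.iUnion fun n =>
      (isOpen_cyl _).measurableSet
  · let D : Set (ℕ → Bool) := ⋃₀ {W | ∃ σ G, GoodAt σ G ∧ W = Box q σ G ∧
      Disjoint W (⋂ k, ⋃ n, cyl (V k n))}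
    have hDo : GOpen q D := by
      apply gopen_sUnion
      rintro _ ⟨σ, G, hG, rfl, -⟩
      exact gopen_box hG
    have hDd : GDense q D := by
      intro σ G hG hlt
      obtain ⟨k, hk⟩ := exists_nat_one_div_lt (show 0 < (q : ℝ) ^ σ.length - G σ by linarith)
      have hg := famGale_good hq0 (hV2 k) σ
      have hlt' : G σ + famGale q (V k) σ < (q : ℝ) ^ σ.length := by
        have := famGale_le hq0 (hV2 k) σ
        have := hV3 k
        linarith
      obtain ⟨x, hx⟩ := box_nonempty hq (hG.add hg) hlt'
      refine ⟨x, box_mono hq0 hG (fun τ hτ => by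
        have := (hg τ hτ).1
        show G τ ≤ G τ + famGale q (V k) τ
        linarith) hx, ?_⟩
      refine ⟨_, ⟨σ, _, hG.add hg, rfl, ?_⟩, hx⟩
      rw [Set.disjoint_left]
      intro y hy hyN
      have h1 := mem_iInter.1 hyN k
      obtain ⟨n, hn⟩ := mem_iUnion.1 h1
      have hn' : res y (V k n).length = V k n := hn
      rcases le_or_gt σ.length (V k n).length with h | h
      · have h2 := hy.2.1 _ h
        rw [hn'] at h2
        have h3 := le_famGale hq0 (hV2 k) n
        have h4 : σ <:+ V k n := by
          rw [← hn']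
          conv_lhs => rw [← hy.1]
          exact res_suffix_res y h
        have h5 := (hG _ h4).1
        have h6 : G (V k n) + famGale q (V k) (V k n) < (q : ℝ) ^ (V k n).length := h2
        linarith
      · have h2 : (q : ℝ) ^ σ.length < (q : ℝ) ^ (V k n).length :=
          pow_lt_pow_right_of_lt_one₀ hq0 hq1 h
        have h3 : (q : ℝ) ^ (V k n).length ≤ ∑' n, (q : ℝ) ^ (V k n).length :=
          (hV2 k).le_tsum n (fun j _ => by positivity)
        have h4 := hV3 k
        have h5 := (hG σ (List.suffix_refl _)).1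
        linarith
    apply Filter.mem_of_superset (residual_of_gdense q hDo hDd)
    rintro x ⟨W, ⟨σ, G, -, rfl, hdis⟩, hxW⟩ hxN
    exact Set.disjoint_left.1 hdis hxW hxN

end Pool.Agent.Lib.MP_d9d12d_lc
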